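import Pool.Agent.Lib.MP_d86530_co.Lv.Stm

set_option autoImplicit false

namespace Pool.Agent.Lib.MP_d86530_co.Lv

theorem s_an : S_AN := by
  intro V C E E' p z q c r Q R h hrc hE
  have hqr : p q < p r := h.qr q r h.hq h.hr hrc
  have hCr := h.memR r h.hr
  have hCq := h.memQ q h.hq
  have hCc := h.memR c h.hc
  have hCz := h.memQ z h.hz
  have hzc : z ≠ c := by rintro rfl; exact h.nqc h.hz
  have hqc : q ≠ c := by rintro rfl; exact h.nqc h.hq
  have hzr : p z < p r := h.qr z r h.hz h.hr hrc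
  have key : ∀ a b, E' a b → p a < p b → E a b ∨ (a = q ∧ b = r) := by
    intro a b hab hlt
    rcases (hE a b).1 hab with h1 | ⟨rfl, rfl⟩ | ⟨rfl, rfl⟩
    · exact Or.inl h1
    · exact Or.inr ⟨rfl, rfl⟩
    · omega
  have key2 : ∀ y, E' c y → E c y := by
    intro y hy
    rcases (hE c y).1 hy with h1 | ⟨h1, h2⟩ | ⟨h1, h2⟩
    · exact h1
    · exact absurd h1.symm hqc
    · exact absurd h1.symm hrc
  have cC : ∀ a b, E' a b → C a ∧ C b := by
    intro x y hxy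
    rcases (hE x y).1 hxy with h1 | ⟨rfl, rfl⟩ | ⟨rfl, rfl⟩
    · exact h.memE x y h1
    · exact ⟨hCq, hCr⟩
    · exact ⟨hCr, hCq⟩
  have top : ∀ a, C a → p a ≤ p r := by
    intro a ha
    by_cases hb : a = r
    · subst hb; omega
    · have := h.hi hrc a ha hb; omega
  have lowq : q ≠ z → p c < p q ∧ p z < p q := by
    intro hz
    have := h.lo q hCq hz hqc
    exact ⟨this.2, this.1⟩
  have bel : ∀ a, C a → p a < p z → a = c := by
    intro a ha hlt
    by_contra hne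
    have := h.lo a ha (by rintro rfl; omega) hne
    omega
  have xq : ∀ x, (Q x ∨ R x) → x ≠ z → x ≠ c → p q < p x → R x := by
    rintro x (hx | hx) h1 h2 h3
    · by_cases hxq : x = q
      · subst hxq; omega
      · have := h.qq x hx hxq; omega
    · exact hx
  refine ⟨h.inj, cC, ?_, ?_, h.memQ, h.memR, h.hz, h.hq, h.hc, h.hr, h.nqc, h.lo, h.hi, h.rc, h.qq, h.qr, ?_, ?_, ?_, ?_, ?_, ?_, ?_⟩
  · intro x y hxy
    rcases (hE x y).1 hxy with h1 | ⟨rfl, rfl⟩ | ⟨rfl, rfl⟩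
    · exact (hE _ _).2 (Or.inl (h.symm x y h1))
    · exact (hE _ _).2 (Or.inr (Or.inr ⟨rfl, rfl⟩))
    · exact (hE _ _).2 (Or.inr (Or.inl ⟨rfl, rfl⟩))
  · intro x y hxy
    rcases (hE x y).1 hxy with h1 | ⟨rfl, rfl⟩ | ⟨rfl, rfl⟩
    · exact h.irr x y h1
    · intro hh; rw [hh] at hqr; omega
    · intro hh; rw [hh] at hqr; omega
  · -- f1
    intro a₁ a₂ a₃ a₄ b₁ b₂ b₃ b₄ h1 h2 h3 h4 l1 l2 l3 l4 l5 l6 l7
    have t4 := top b₄ (cC _ _ h4).2
    have k1 : E a₁ b₁ := by rcases key _ _ h1 (by omega) with k | ⟨rfl, rfl⟩; exacts [k, by omega]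
    have k2 : E a₂ b₂ := by rcases key _ _ h2 (by omega) with k | ⟨rfl, rfl⟩; exacts [k, by omega]
    have k3 : E a₃ b₃ := by rcases key _ _ h3 (by omega) with k | ⟨rfl, rfl⟩; exacts [k, by omega]
    rcases key _ _ h4 (by omega) with k4 | ⟨rfl, rfl⟩
    · exact h.f1 _ _ _ _ _ _ _ _ k1 k2 k3 k4 l1 l2 l3 l4 l5 l6 l7
    · by_cases hz : a₄ = z
      · subst hz
        have e1 := bel a₁ (cC _ _ h1).1 (by omega)
        have e2 := bel a₂ (cC _ _ h2).1 (by omega)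
        rw [e1, e2] at l1; omega
      · exact h.f2 a₄ (Or.inl h.hq) hz hqc _ _ _ _ _ _ k1 k2 k3 l1 l2 l3 l4 l5 l6
  · -- f2
    intro x hx hxz hxc a₁ a₂ a₃ b₁ b₂ b₃ h1 h2 h3 l1 l2 l3 l4 l5 l6
    have t4 := top b₃ (cC _ _ h3).2
    have k1 : E a₁ b₁ := by rcases key _ _ h1 (by omega) with k | ⟨rfl, rfl⟩; exacts [k, by omega]
    have k2 : E a₂ b₂ := by rcases key _ _ h2 (by omega) with k | ⟨rfl, rfl⟩; exacts [k, by omega]
    rcases key _ _ h3 (by omega) with k3 | ⟨rfl, rfl⟩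
    · exact h.f2 x hx hxz hxc _ _ _ _ _ _ k1 k2 k3 l1 l2 l3 l4 l5 l6
    · by_cases hz : a₃ = z
      · subst hz
        have e1 := bel a₁ (cC _ _ h1).1 (by omega)
        have e2 := bel a₂ (cC _ _ h2).1 (by omega)
        rw [e1, e2] at l1; omega
      · have hR := xq x hx hxz hxc l3
        by_cases hc : a₂ = c
        · have := h.s1 hz x hR hxc a₁ b₁ k1 (by omega) (by rintro rfl; rw [hc] at l1; omega)
          omega
        · have := h.s1 hz x hR hxc a₂ b₂ k2 (by omega) hc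
          omega
  · -- f3
    intro x hx hxz hxc y hy hyx a₁ a₂ b₁ b₂ h1 h2 n1 n2 l1 l2 l3 l4
    have t4 := top b₂ (cC _ _ h2).2
    have hy' := key2 y hy
    have k1 : E a₁ b₁ := by rcases key _ _ h1 (by omega) with k | ⟨rfl, rfl⟩; exacts [k, by omega]
    rcases key _ _ h2 (by omega) with k2 | ⟨rfl, rfl⟩
    · exact h.f3 x hx hxz hxc y hy' hyx _ _ _ _ k1 k2 n1 n2 l1 l2 l3 l4
    · by_cases hz : a₂ = z
      · subst hz
        exact n1 (bel a₁ (cC _ _ h1).1 (by omega))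
      · have hR := xq x hx hxz hxc (by omega)
        have := h.s1 hz x hR hxc a₁ b₁ k1 (by omega) n1
        omega
  · -- f4
    intro _ x y hx hy hyx a₁ a₂ b₁ b₂ h1 h2 n1 n2 m1 m2 l1 l2 l3 l4
    have hy' := key2 y hy
    have k1 : E a₁ b₁ := by rcases key _ _ h1 (by omega) with k | ⟨rfl, rfl⟩; exacts [k, absurd rfl m1]
    have k2 : E a₂ b₂ := by rcases key _ _ h2 (by omega) with k | ⟨rfl, rfl⟩; exacts [k, absurd rfl m2]
    rcases (hE x r).1 hx with hx' | ⟨rfl, _⟩ | ⟨e1, e2⟩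
    · exact h.f4 hrc x y hx' hy' hyx _ _ _ _ k1 k2 n1 n2 m1 m2 l1 l2 l3 l4
    · by_cases hz : x = z
      · subst hz
        exact h.irr _ _ hy' (bel y (h.memE _ _ hy').2 hyx).symm
      · exact h.f3 x (Or.inl h.hq) hz hqc y hy' hyx _ _ _ _ k1 k2 n1 n2 l1 l2 l3 l4
    · rw [e2] at hqr; omega
  · -- f5
    intro w hw hwc x y hx hy hyx hxw a b hab na nb l1 l2
    have hy' := key2 y hy
    have k1 : E a b := by rcases key _ _ hab (by omega) with k | ⟨rfl, rfl⟩; exacts [k, absurd rfl nb]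
    rcases (hE x r).1 hx with hx' | ⟨rfl, _⟩ | ⟨e1, e2⟩
    · exact h.f5 w hw hwc x y hx' hy' hyx hxw a b k1 na nb l1 l2
    · by_cases hz : x = z
      · subst hz
        exact h.irr _ _ hy' (bel y (h.memE _ _ hy').2 hyx).symm
      · have := h.s1 hz w hw hwc a b k1 (by omega) na
        omega
    · rw [e2] at hqr; omega
  · -- f6
    intro w hw hwc x hx hxz hxw u hu hwu
    rcases (hE z u).1 hu with hu' | ⟨_, h2⟩ | ⟨h1, h2⟩
    · rcases (hE x r).1 hx with hx' | ⟨rfl, _⟩ | ⟨e1, e2⟩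
      · exact h.f6 w hw hwc x hx' hxz hxw u hu' hwu
      · have := h.s1 hxz w hw hwc z u hu' (lowq hxz).2 hzc
        omega
      · rw [e2] at hqr; omega
    · exact h2
    · rw [← h1] at hzr; omega
  · -- s1
    intro hqz w hw hwc a b hab haq hac
    rcases (hE a b).1 hab with h1 | ⟨rfl, rfl⟩ | ⟨rfl, rfl⟩
    · exact h.s1 hqz w hw hwc a b h1 haq hac
    · omega
    · omega

end Pool.Agent.Lib.MP_d86530_co.Lv
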