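import Pool.Agent.Lib.MP_d86530_co.Lv.Stm

/-! # MP_d86530_co, level layout, closure lemma FB: a disc and a new vertex `z` joined to `c` -/

set_option autoImplicit false

namespace Pool.Agent.Lib.MP_d86530_co.Lv

theorem s_fb : S_FB := by
  intro V C C₁ E E₁ p z c r R G hz1 hzc hzlt hC hE
  have hcC : C₁ c := G.memR _ G.hr
  have hrC : C₁ r := G.memR _ G.ht
  have hne : z ≠ c := by rintro rfl; exact hz1 hcC
  have hzr : z ≠ r := by rintro rfl; exact hz1 hrC
  have hcr : p c < p r := G.hi _ hcC G.ne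
  have hmax : ∀ x, C x → p x ≤ p r := by
    intro x hx
    rcases (hC x).1 hx with h | h
    · by_cases h' : x = r
      · rw [h']
      · exact (G.hi _ h h').le
    · rw [h]; exact (hzlt _ hrC G.ne.symm).le
  have hlo : ∀ x, C x → x ≠ z → x ≠ c → p z < p x ∧ p c < p x := by
    intro x hx h1 h2
    rcases (hC x).1 hx with h | h
    · exact ⟨hzlt _ h h2, G.lo _ h h2⟩
    · exact absurd h h1
  have hEC : ∀ x y, E x y → C x ∧ C y := by
    intro x y h
    rcases (hE x y).1 h with h | ⟨h1, h2⟩ | ⟨h1, h2⟩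
    · exact ⟨(hC x).2 (Or.inl (G.memE _ _ h).1), (hC y).2 (Or.inl (G.memE _ _ h).2)⟩
    · subst h1; subst h2; exact ⟨(hC _).2 (Or.inr rfl), (hC _).2 (Or.inl hcC)⟩
    · subst h1; subst h2; exact ⟨(hC _).2 (Or.inl hcC), (hC _).2 (Or.inr rfl)⟩
  -- an edge with something of `C` strictly between its ends, or with a high end, is old
  have key : ∀ a b x, E a b → C x → p a < p x → p x < p b → E₁ a b := by
    intro a b x h hx h1 h2
    rcases (hE a b).1 h with h | ⟨h3, h4⟩ | ⟨h3, h4⟩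
    · exact h
    · subst h3; subst h4
      have := hlo x hx (by rintro rfl; omega) (by rintro rfl; omega)
      omega
    · subst h3; subst h4
      have := hlo x hx (by rintro rfl; omega) (by rintro rfl; omega)
      omega
  -- nothing except `c` is below `z`
  have hbel : ∀ a, C a → p a < p z → a = c := by
    intro a ha h
    by_contra h'
    have := (hlo a ha (by rintro rfl; omega) h').1
    omega
  have hcy : ∀ y, E c y → E₁ c y ∨ y = z := by
    intro y h
    rcases (hE c y).1 h with h | ⟨h1, h2⟩ | ⟨h1, h2⟩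
    · exact Or.inl h
    · exact absurd h1.symm hne
    · exact Or.inr h2
  have hxr : ∀ x, E x r → E₁ x r := by
    intro x h
    rcases (hE x r).1 h with h | ⟨h1, h2⟩ | ⟨h1, h2⟩
    · exact h
    · exact absurd h2.symm G.ne
    · exact absurd h2.symm hzr
  refine
    { inj := ?_
      memE := hEC
      symm := ?_
      irr := ?_
      memQ := ?_
      memR := fun x hx => (hC x).2 (Or.inl (G.memR x hx))
      hz := rfl
      hq := rfl
      hc := G.hr
      hr := G.ht
      nqc := fun h => hne h.symm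
      lo := hlo
      hi := ?_
      rc := fun h => absurd h.symm G.ne
      qq := fun x hx hx' => absurd hx hx'
      qr := ?_
      f1 := ?_
      f2 := ?_
      f3 := ?_
      f4 := ?_
      f5 := ?_
      f6 := ?_
      s1 := fun h => absurd rfl h }
  · intro x y hx hy h
    rcases (hC x).1 hx with h1 | h1 <;> rcases (hC y).1 hy with h2 | h2
    · exact G.inj _ _ h1 h2 h
    · subst h2
      by_cases h3 : x = c
      · subst h3; exact absurd h.symm hzc
      · have := hzlt _ h1 h3; omega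
    · subst h1
      by_cases h3 : y = c
      · subst h3; exact absurd h hzc
      · have := hzlt _ h2 h3; omega
    · rw [h1, h2]
  · intro x y h
    rcases (hE x y).1 h with h | ⟨h1, h2⟩ | ⟨h1, h2⟩
    · exact (hE y x).2 (Or.inl (G.symm _ _ h))
    · exact (hE y x).2 (Or.inr (Or.inr ⟨h2, h1⟩))
    · exact (hE y x).2 (Or.inr (Or.inl ⟨h2, h1⟩))
  · intro x y h
    rcases (hE x y).1 h with h | ⟨h1, h2⟩ | ⟨h1, h2⟩
    · exact G.irr _ _ h
    · subst h1; subst h2; exact hne
    · subst h1; subst h2; exact hne.symm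
  · intro x hx; exact (hC x).2 (Or.inr hx)
  · intro _ x hx hxr'
    rcases (hC x).1 hx with h | h
    · exact G.hi _ h hxr'
    · rw [h]; exact hzlt _ hrC G.ne.symm
  · intro x y hx hy hyc
    have hx' : x = z := hx
    rw [hx']; exact hzlt _ (G.memR _ hy) hyc
  · intro a₁ a₂ a₃ a₄ b₁ b₂ b₃ b₄ e₁ e₂ e₃ e₄ h1 h2 h3 h4 h5 h6 h7
    exact G.d1 _ _ _ _ _ _ _ _ (key _ _ _ e₁ (hEC _ _ e₂).1 h1 (by omega))
      (key _ _ _ e₂ (hEC _ _ e₃).1 h2 (by omega)) (key _ _ _ e₃ (hEC _ _ e₄).1 h3 (by omega))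
      (key _ _ _ e₄ (hEC _ _ e₁).2 h4 (by omega)) h1 h2 h3 h4 h5 h6 h7
  · intro x hx hxz hxc a₁ a₂ a₃ b₁ b₂ b₃ e₁ e₂ e₃ h1 h2 h3 h4 h5 h6
    have hxR : R x := hx.resolve_left hxz
    have hxC : C x := (hC x).2 (Or.inl (G.memR _ hxR))
    have hb := hmax _ (hEC _ _ e₁).2
    exact G.d2 x hxR hxc (by rintro rfl; omega) _ _ _ _ _ _
      (key _ _ x e₁ hxC (by omega) (by omega)) (key _ _ x e₂ hxC (by omega) (by omega))
      (key _ _ x e₃ hxC (by omega) (by omega)) h1 h2 h3 h4 h5 h6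
  · intro x hx hxz hxc y hy hyx a₁ a₂ b₁ b₂ e₁ e₂ n1 n2 h1 h2 h3 h4
    have hxR : R x := hx.resolve_left hxz
    have hxC : C x := (hC x).2 (Or.inl (G.memR _ hxR))
    have hb := hmax _ (hEC _ _ e₁).2
    rcases hcy y hy with hy' | rfl
    · exact G.d3 x hxR hxc (by rintro rfl; omega) y hy' hyx _ _ _ _
        (key _ _ x e₁ hxC (by omega) (by omega)) (key _ _ x e₂ hxC (by omega) (by omega))
        n1 n2 h1 h2 h3 h4
    · exact n2 (hbel _ (hEC _ _ e₂).1 (by omega))
  · intro _ x y hx hy hyx a₁ a₂ b₁ b₂ e₁ e₂ n1 n2 m1 m2 h1 h2 h3 h4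
    have hxC := (hEC _ _ hx).1
    rcases hcy y hy with hy' | rfl
    · exact G.d4 x y (hxr x hx) hy' hyx _ _ _ _
        (key _ _ x e₁ hxC (by omega) (by omega)) (key _ _ x e₂ hxC (by omega) (by omega))
        n1 n2 m1 m2 h1 h2 h3 h4
    · exact n2 (hbel _ (hEC _ _ e₂).1 (by omega))
  · intro w hw hwc x y hx hy hyx hxw a b e n1 m1 h1 h2
    have hwC : C w := (hC w).2 (Or.inl (G.memR _ hw))
    have hb := hmax _ (hEC _ _ e).2
    rcases hcy y hy with hy' | rfl
    · exact G.d5 w hw hwc (by rintro rfl; omega) x y (hxr x hx) hy' hyx hxw _ _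
        (key _ _ w e hwC (by omega) (by omega)) n1 m1 h1 h2
    · exact n1 (hbel _ (hEC _ _ e).1 (by omega))
  · intro w hw hwc x hx hxz hxw u hu hwu
    have hwC := G.lo _ (G.memR _ hw) hwc
    rcases (hE z u).1 hu with h | ⟨-, h2⟩ | ⟨h1, h2⟩
    · exact absurd (G.memE _ _ h).1 hz1
    · subst h2; omega
    · exact absurd h1 hne

end Pool.Agent.Lib.MP_d86530_co.Lv
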