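import Pool.Agent.Lib.MP_d86530_co.Lv.Stm

set_option autoImplicit false

namespace Pool.Agent.Lib.MP_d86530_co.Lv

theorem s_d0 : S_D0 := by
  intro V p a b hab
  have hne : a ≠ b := by rintro rfl; omega
  have hE : ∀ x y, Ed a b x y → p x < p y → x = a ∧ y = b := by
    rintro x y (⟨rfl, rfl⟩ | ⟨rfl, rfl⟩) h
    · exact ⟨rfl, rfl⟩
    · omega
  refine ⟨?_, ?_, ?_, ?_, ?_, Or.inl rfl, Or.inr rfl, hne, ?_, ?_, ?_, ?_, ?_, ?_, ?_⟩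
  · rintro x y (rfl | rfl) (rfl | rfl) h <;> first | rfl | omega
  · rintro x y (⟨rfl, rfl⟩ | ⟨rfl, rfl⟩) <;> simp
  · rintro x y (⟨rfl, rfl⟩ | ⟨rfl, rfl⟩) <;> simp [Ed]
  · rintro x y (⟨rfl, rfl⟩ | ⟨rfl, rfl⟩)
    · exact hne
    · exact hne.symm
  · exact fun x h => h
  · rintro x (rfl | rfl) h
    · exact absurd rfl h
    · exact hab
  · rintro x (rfl | rfl) h
    · exact hab
    · exact absurd rfl h
  · intro a₁ a₂ a₃ a₄ b₁ b₂ b₃ b₄ h1 h2 h3 h4 o1 o2 o3 o4 o5 o6 o7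
    obtain ⟨rfl, rfl⟩ := hE _ _ h1 (by omega)
    obtain ⟨rfl, rfl⟩ := hE _ _ h2 (by omega)
    omega
  · rintro x (rfl | rfl) h1 h2
    · exact absurd rfl h1
    · exact absurd rfl h2
  · rintro x (rfl | rfl) h1 h2
    · exact absurd rfl h1
    · exact absurd rfl h2
  · intro x y hx hy hyx a₁ a₂ b₁ b₂ h1 h2 c1 c2 r1 r2 o1 o2 o3 o4
    obtain ⟨rfl, rfl⟩ := hE _ _ h1 (by omega)
    exact c1 rfl
  · rintro x (rfl | rfl) h1 h2
    · exact absurd rfl h1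
    · exact absurd rfl h2

theorem s_f0 : S_F0 := by
  intro V p z c hne
  have hzc : z ≠ c := by rintro rfl; exact hne rfl
  have hE : ∀ x y, Ed z c x y → (x = z ∧ y = c) ∨ (x = c ∧ y = z) := fun x y h => h
  refine ⟨?_, ?_, ?_, ?_, fun x h => Or.inl h, fun x h => Or.inr h, rfl, rfl, rfl, rfl,
    fun h => hzc h.symm, ?_, fun h => absurd rfl h, fun _ x h => h, fun x h1 h2 => absurd h1 h2,
    fun x y _ h1 h2 => absurd h1 h2, ?_, ?_, ?_, ?_, ?_, ?_, fun h => absurd rfl h⟩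
  · rintro x y (rfl | rfl) (rfl | rfl) h <;> first | rfl | omega
  · rintro x y (⟨rfl, rfl⟩ | ⟨rfl, rfl⟩) <;> simp
  · rintro x y (⟨rfl, rfl⟩ | ⟨rfl, rfl⟩) <;> simp [Ed]
  · rintro x y (⟨rfl, rfl⟩ | ⟨rfl, rfl⟩)
    · exact hzc
    · exact hzc.symm
  · rintro x (rfl | rfl) h1 h2
    · exact absurd rfl h1
    · exact absurd rfl h2
  · intro a₁ a₂ a₃ a₄ b₁ b₂ b₃ b₄ h1 h2 h3 h4 o1 o2 o3 o4 o5 o6 o7
    rcases hE _ _ h1 with ⟨rfl, rfl⟩ | ⟨rfl, rfl⟩ <;>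
    rcases hE _ _ h2 with ⟨rfl, rfl⟩ | ⟨rfl, rfl⟩ <;> omega
  · rintro x (h | h) h1 h2
    · exact absurd h h1
    · exact absurd h h2
  · rintro x (h | h) h1 h2
    · exact absurd h h1
    · exact absurd h h2
  · exact fun h => absurd rfl h
  · exact fun w h1 h2 => absurd h1 h2
  · exact fun w h1 h2 => absurd h1 h2

theorem s_de : S_DE := by
  intro V C E E' p r t R D hE
  have rC := D.memR _ D.hr
  have tC := D.memR _ D.ht
  have hlo : ∀ x, C x → ¬ p x < p r := by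
    intro x hx h
    have := D.lo x hx (by rintro rfl; omega)
    omega
  have hhi : ∀ x, C x → ¬ p t < p x := by
    intro x hx h
    have := D.hi x hx (by rintro rfl; omega)
    omega
  have hm : ∀ x y, E' x y → C x ∧ C y := by
    intro x y h
    rcases (hE x y).1 h with h | ⟨rfl, rfl⟩ | ⟨rfl, rfl⟩
    · exact D.memE _ _ h
    · exact ⟨rC, tC⟩
    · exact ⟨tC, rC⟩
  have hin : ∀ x y, E' x y → x ≠ r → y ≠ r → E x y := by
    intro x y h h1 h2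
    rcases (hE x y).1 h with h | ⟨rfl, rfl⟩ | ⟨rfl, rfl⟩
    · exact h
    · exact absurd rfl h1
    · exact absurd rfl h2
  have hinl : ∀ x y, E' x y → p x < p y → (∃ u, C u ∧ p y < p u) → E x y := by
    intro x y h h1 ⟨u, hu, h2⟩
    rcases (hE x y).1 h with h | ⟨rfl, rfl⟩ | ⟨rfl, rfl⟩
    · exact h
    · exact absurd h2 (hhi u hu)
    · exact absurd h1 (hlo _ tC)
  have hinr : ∀ x y, E' x y → p x < p y → (∃ u, C u ∧ p u < p x) → E x y := by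
    intro x y h h1 ⟨u, hu, h2⟩
    rcases (hE x y).1 h with h | ⟨rfl, rfl⟩ | ⟨rfl, rfl⟩
    · exact h
    · exact absurd h2 (hlo u hu)
    · exact absurd h1 (hlo _ tC)
  refine ⟨D.inj, hm, ?_, ?_, D.memR, D.hr, D.ht, D.ne, D.lo, D.hi, ?_, ?_, ?_, ?_, ?_⟩
  · intro x y h
    rw [hE]
    rcases (hE x y).1 h with h | ⟨rfl, rfl⟩ | ⟨rfl, rfl⟩
    · exact Or.inl (D.symm _ _ h)
    · exact Or.inr (Or.inr ⟨rfl, rfl⟩)
    · exact Or.inr (Or.inl ⟨rfl, rfl⟩)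
  · intro x y h
    rcases (hE x y).1 h with h | ⟨rfl, rfl⟩ | ⟨rfl, rfl⟩
    · exact D.irr _ _ h
    · exact D.ne
    · exact D.ne.symm
  · intro a₁ a₂ a₃ a₄ b₁ b₂ b₃ b₄ h1 h2 h3 h4 o1 o2 o3 o4 o5 o6 o7
    exact D.d1 a₁ a₂ a₃ a₄ b₁ b₂ b₃ b₄ (hinl _ _ h1 (by omega) ⟨b₂, (hm _ _ h2).2, o5⟩)
      (hinl _ _ h2 (by omega) ⟨b₃, (hm _ _ h3).2, o6⟩)
      (hinl _ _ h3 (by omega) ⟨b₄, (hm _ _ h4).2, o7⟩)
      (hinr _ _ h4 (by omega) ⟨a₃, (hm _ _ h3).1, o3⟩) o1 o2 o3 o4 o5 o6 o7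
  · intro x hx hxr hxt a₁ a₂ a₃ b₁ b₂ b₃ h1 h2 h3 o1 o2 o3 o4 o5 o6
    exact D.d2 x hx hxr hxt a₁ a₂ a₃ b₁ b₂ b₃ (hinl _ _ h1 (by omega) ⟨b₂, (hm _ _ h2).2, o5⟩)
      (hinl _ _ h2 (by omega) ⟨b₃, (hm _ _ h3).2, o6⟩)
      (hinr _ _ h3 (by omega) ⟨a₂, (hm _ _ h2).1, o2⟩) o1 o2 o3 o4 o5 o6
  · intro x hx hxr hxt y hy hyx a₁ a₂ b₁ b₂ h1 h2 c1 c2 o1 o2 o3 o4
    have hy' : E r y := by
      rcases (hE r y).1 hy with h | ⟨-, rfl⟩ | ⟨h, -⟩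
      · exact h
      · exact absurd hyx (hhi _ (D.memR _ hx))
      · exact absurd h D.ne
    exact D.d3 x hx hxr hxt y hy' hyx a₁ a₂ b₁ b₂ (hinl _ _ h1 (by omega) ⟨b₂, (hm _ _ h2).2, o4⟩)
      (hinr _ _ h2 (by omega) ⟨a₁, (hm _ _ h1).1, o1⟩) c1 c2 o1 o2 o3 o4
  · intro x y hx hy hyx a₁ a₂ b₁ b₂ h1 h2 c1 c2 r1 r2 o1 o2 o3 o4
    have hy' : E r y := by
      rcases (hE r y).1 hy with h | ⟨-, rfl⟩ | ⟨h, -⟩
      · exact h
      · exact absurd hyx (hhi _ (hm _ _ hx).1)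
      · exact absurd h D.ne
    have hx' : E x t := by
      rcases (hE x t).1 hx with h | ⟨rfl, -⟩ | ⟨-, h⟩
      · exact h
      · exact absurd hyx (hlo _ (hm _ _ hy).2)
      · exact absurd h.symm D.ne
    exact D.d4 x y hx' hy' hyx a₁ a₂ b₁ b₂ (hinl _ _ h1 (by omega) ⟨b₂, (hm _ _ h2).2, o4⟩)
      (hinr _ _ h2 (by omega) ⟨a₁, (hm _ _ h1).1, o1⟩) c1 c2 r1 r2 o1 o2 o3 o4
  · intro w hw hwr hwt x y hx hy hyx hxw a b h har hbt hay hwb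
    have hy' : E r y := by
      rcases (hE r y).1 hy with h | ⟨-, rfl⟩ | ⟨h, -⟩
      · exact h
      · exact absurd hyx (hhi _ (hm _ _ hx).1)
      · exact absurd h D.ne
    have hx' : E x t := by
      rcases (hE x t).1 hx with h | ⟨rfl, -⟩ | ⟨-, h⟩
      · exact h
      · exact absurd hyx (hlo _ (hm _ _ hy).2)
      · exact absurd h.symm D.ne
    refine D.d5 w hw hwr hwt x y hx' hy' hyx hxw a b ?_ har hbt hay hwb
    rcases (hE a b).1 h with h | ⟨h, -⟩ | ⟨-, h⟩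
    · exact h
    · exact absurd h har
    · subst h
      exact absurd hwb (hlo _ (D.memR _ hw))

end Pool.Agent.Lib.MP_d86530_co.Lv
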