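import Pool.Agent.Lib.MP_d86530_co.Lv.Cat
import Pool.Agent.Lib.MP_d86530_co.Lv.Small
import Pool.Agent.Lib.MP_d86530_co.Lv.AN
import Pool.Agent.Lib.MP_d86530_co.Lv.FB
import Pool.Agent.Lib.MP_d86530_co.Lev.Iface

set_option autoImplicit false

namespace Pool.Agent.Lib.MP_d86530_co.Lv

variable {W : Type}

/-- only the order of the positions matters -/
theorem GD.congr {C : W → Prop} {E : W → W → Prop} {p p' : W → ℤ} {r t : W} {R : W → Prop}
    (D : GD C E p r t R) (h : ∀ x y, C x → C y → (p x < p y ↔ p' x < p' y)) :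
    GD C E p' r t R := by
  have hl : ∀ x y, E x y → C x := fun x y h => (D.memE x y h).1
  have hr : ∀ x y, E x y → C y := fun x y h => (D.memE x y h).2
  have g : ∀ x y, C x → C y → p' x < p' y → p x < p y := fun x y hx hy => (h x y hx hy).2
  have rC := D.memR _ D.hr
  have tC := D.memR _ D.ht
  refine ⟨?_, D.memE, D.symm, D.irr, D.memR, D.hr, D.ht, D.ne, ?_, ?_, ?_, ?_, ?_, ?_, ?_⟩
  · intro x y hx hy hxy
    apply D.inj x y hx hy
    have h1 := h x y hx hy
    have h2 := h y x hy hx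
    omega
  · exact fun x hx hxr => (h _ _ rC hx).1 (D.lo x hx hxr)
  · exact fun x hx hxr => (h _ _ hx tC).1 (D.hi x hx hxr)
  · intro a₁ a₂ a₃ a₄ b₁ b₂ b₃ b₄ h1 h2 h3 h4 o1 o2 o3 o4 o5 o6 o7
    exact D.d1 a₁ a₂ a₃ a₄ b₁ b₂ b₃ b₄ h1 h2 h3 h4 (g _ _ (hl _ _ h1) (hl _ _ h2) o1)
      (g _ _ (hl _ _ h2) (hl _ _ h3) o2) (g _ _ (hl _ _ h3) (hl _ _ h4) o3)
      (g _ _ (hl _ _ h4) (hr _ _ h1) o4) (g _ _ (hr _ _ h1) (hr _ _ h2) o5)
      (g _ _ (hr _ _ h2) (hr _ _ h3) o6) (g _ _ (hr _ _ h3) (hr _ _ h4) o7)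
  · intro x hx hxr hxt a₁ a₂ a₃ b₁ b₂ b₃ h1 h2 h3 o1 o2 o3 o4 o5 o6
    have xC := D.memR _ hx
    exact D.d2 x hx hxr hxt a₁ a₂ a₃ b₁ b₂ b₃ h1 h2 h3 (g _ _ (hl _ _ h1) (hl _ _ h2) o1)
      (g _ _ (hl _ _ h2) (hl _ _ h3) o2) (g _ _ (hl _ _ h3) xC o3)
      (g _ _ xC (hr _ _ h1) o4) (g _ _ (hr _ _ h1) (hr _ _ h2) o5)
      (g _ _ (hr _ _ h2) (hr _ _ h3) o6)
  · intro x hx hxr hxt y hy hyx a₁ a₂ b₁ b₂ h1 h2 c1 c2 o1 o2 o3 o4
    have xC := D.memR _ hx
    have yC := hr _ _ hy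
    exact D.d3 x hx hxr hxt y hy (g _ _ yC xC hyx) a₁ a₂ b₁ b₂ h1 h2 c1 c2
      (g _ _ (hl _ _ h1) (hl _ _ h2) o1) (g _ _ (hl _ _ h2) yC o2) (g _ _ xC (hr _ _ h1) o3)
      (g _ _ (hr _ _ h1) (hr _ _ h2) o4)
  · intro x y hx hy hyx a₁ a₂ b₁ b₂ h1 h2 c1 c2 r1 r2 o1 o2 o3 o4
    have xC := hl _ _ hx
    have yC := hr _ _ hy
    exact D.d4 x y hx hy (g _ _ yC xC hyx) a₁ a₂ b₁ b₂ h1 h2 c1 c2 r1 r2
      (g _ _ (hl _ _ h1) (hl _ _ h2) o1) (g _ _ (hl _ _ h2) yC o2) (g _ _ xC (hr _ _ h1) o3)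
      (g _ _ (hr _ _ h1) (hr _ _ h2) o4)
  · intro w hw hwr hwt x y hx hy hyx hxw a b hab har hbt hay hwb
    have xC := hl _ _ hx
    have yC := hr _ _ hy
    have wC := D.memR _ hw
    exact D.d5 w hw hwr hwt x y hx hy (g _ _ yC xC hyx) (g _ _ xC wC hxw) a b hab har hbt
      (g _ _ (hl _ _ hab) yC hay) (g _ _ wC (hr _ _ hab) hwb)

theorem GF.congr {C : W → Prop} {E : W → W → Prop} {p p' : W → ℤ} {z q c r : W} {Q R : W → Prop}
    (D : GF C E p z q c r Q R) (h : ∀ x y, C x → C y → (p x < p y ↔ p' x < p' y)) :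
    GF C E p' z q c r Q R := by
  have hl : ∀ x y, E x y → C x := fun x y h => (D.memE x y h).1
  have hr : ∀ x y, E x y → C y := fun x y h => (D.memE x y h).2
  have g : ∀ x y, C x → C y → p' x < p' y → p x < p y := fun x y hx hy => (h x y hx hy).2
  have rC := D.memR _ D.hr
  have cC := D.memR _ D.hc
  have zC := D.memQ _ D.hz
  have qC := D.memQ _ D.hq
  refine ⟨?_, D.memE, D.symm, D.irr, D.memQ, D.memR, D.hz, D.hq, D.hc, D.hr, D.nqc, ?_, ?_, D.rc,
    ?_, ?_, ?_, ?_, ?_, ?_, ?_, ?_, ?_⟩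
  · intro x y hx hy hxy
    apply D.inj x y hx hy
    have h1 := h x y hx hy
    have h2 := h y x hy hx
    omega
  · exact fun x hx hxz hxc => ⟨(h _ _ zC hx).1 (D.lo x hx hxz hxc).1,
      (h _ _ cC hx).1 (D.lo x hx hxz hxc).2⟩
  · exact fun hrc x hx hxr => (h _ _ hx rC).1 (D.hi hrc x hx hxr)
  · exact fun x hx hxq => (h _ _ (D.memQ _ hx) qC).1 (D.qq x hx hxq)
  · exact fun x y hx hy hyc => (h _ _ (D.memQ _ hx) (D.memR _ hy)).1 (D.qr x y hx hy hyc)
  · intro a₁ a₂ a₃ a₄ b₁ b₂ b₃ b₄ h1 h2 h3 h4 o1 o2 o3 o4 o5 o6 o7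
    exact D.f1 a₁ a₂ a₃ a₄ b₁ b₂ b₃ b₄ h1 h2 h3 h4 (g _ _ (hl _ _ h1) (hl _ _ h2) o1)
      (g _ _ (hl _ _ h2) (hl _ _ h3) o2) (g _ _ (hl _ _ h3) (hl _ _ h4) o3)
      (g _ _ (hl _ _ h4) (hr _ _ h1) o4) (g _ _ (hr _ _ h1) (hr _ _ h2) o5)
      (g _ _ (hr _ _ h2) (hr _ _ h3) o6) (g _ _ (hr _ _ h3) (hr _ _ h4) o7)
  · intro x hx hxr hxt a₁ a₂ a₃ b₁ b₂ b₃ h1 h2 h3 o1 o2 o3 o4 o5 o6
    have xC : C x := by
      rcases hx with hx | hx
      · exact D.memQ _ hx
      · exact D.memR _ hx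
    exact D.f2 x hx hxr hxt a₁ a₂ a₃ b₁ b₂ b₃ h1 h2 h3 (g _ _ (hl _ _ h1) (hl _ _ h2) o1)
      (g _ _ (hl _ _ h2) (hl _ _ h3) o2) (g _ _ (hl _ _ h3) xC o3)
      (g _ _ xC (hr _ _ h1) o4) (g _ _ (hr _ _ h1) (hr _ _ h2) o5)
      (g _ _ (hr _ _ h2) (hr _ _ h3) o6)
  · intro x hx hxr hxt y hy hyx a₁ a₂ b₁ b₂ h1 h2 c1 c2 o1 o2 o3 o4
    have xC : C x := by
      rcases hx with hx | hx
      · exact D.memQ _ hx
      · exact D.memR _ hx
    have yC := hr _ _ hy
    exact D.f3 x hx hxr hxt y hy (g _ _ yC xC hyx) a₁ a₂ b₁ b₂ h1 h2 c1 c2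
      (g _ _ (hl _ _ h1) (hl _ _ h2) o1) (g _ _ (hl _ _ h2) yC o2) (g _ _ xC (hr _ _ h1) o3)
      (g _ _ (hr _ _ h1) (hr _ _ h2) o4)
  · intro hrc x y hx hy hyx a₁ a₂ b₁ b₂ h1 h2 c1 c2 r1 r2 o1 o2 o3 o4
    have xC := hl _ _ hx
    have yC := hr _ _ hy
    exact D.f4 hrc x y hx hy (g _ _ yC xC hyx) a₁ a₂ b₁ b₂ h1 h2 c1 c2 r1 r2
      (g _ _ (hl _ _ h1) (hl _ _ h2) o1) (g _ _ (hl _ _ h2) yC o2) (g _ _ xC (hr _ _ h1) o3)
      (g _ _ (hr _ _ h1) (hr _ _ h2) o4)
  · intro w hw hwr x y hx hy hyx hxw a b hab har hbt hay hwb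
    have xC := hl _ _ hx
    have yC := hr _ _ hy
    have wC := D.memR _ hw
    exact D.f5 w hw hwr x y hx hy (g _ _ yC xC hyx) (g _ _ xC wC hxw) a b hab har hbt
      (g _ _ (hl _ _ hab) yC hay) (g _ _ wC (hr _ _ hab) hwb)
  · intro w hw hwc x hx hxz hxw u hu hwu
    exact D.f6 w hw hwc x hx hxz (g _ _ (hl _ _ hx) (D.memR _ hw) hxw) u hu
      (g _ _ (D.memR _ hw) (hr _ _ hu) hwu)
  · intro hqz w hw hwc a b hab haq hac
    exact (h _ _ (hr _ _ hab) (D.memR _ hw)).1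
      (D.s1 hqz w hw hwc a b hab (g _ _ (hl _ _ hab) qC haq) hac)

/-- a disc with boundary path `l` has a good layout -/
def PD (l : List W) (E : W → W → Prop) : Prop :=
  ∃ (r t : W) (p : W → ℤ), l.head? = some r ∧ l.getLast? = some t ∧
    l.Pairwise (fun x y => p x < p y) ∧ GD (Sup E) E p r t (fun x => x ∈ l)

/-- a disc with boundary cycle `Q ++ R.reverse` has a near and a far layout -/
def PF (Q R : List W) (E : W → W → Prop) : Prop :=
  ∃ (z q c r : W), Q.head? = some z ∧ Q.getLast? = some q ∧ R.head? = some c ∧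
    R.getLast? = some r ∧
    (Q.length = 1 → R.length = 1 → ∀ x, Sup E x → x = z ∨ x = c) ∧
    ∀ near : Bool, ∃ (p : W → ℤ) (M : ℤ), (p c < p z ↔ near = true) ∧
      (∀ x, Sup E x → p x < M) ∧ Q.Pairwise (fun x y => p x < p y) ∧
      R.Pairwise (fun x y => p x < p y) ∧
      GF (Sup E) E p z q c r (fun x => x ∈ Q) (fun x => x ∈ R)

theorem sup_ed {a b x : W} : Sup (MP_d86530_co.Ed a b) x ↔ x = a ∨ x = b := by
  constructor
  · rintro ⟨y, ⟨h, -⟩ | ⟨h, -⟩⟩
    · exact Or.inl h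
    · exact Or.inr h
  · rintro (h | h)
    · exact ⟨b, Or.inl ⟨h, rfl⟩⟩
    · exact ⟨a, Or.inr ⟨h, rfl⟩⟩

theorem pd_edge (a b : W) (hab : a ≠ b) : PD [a, b] (MP_d86530_co.Ed a b) := by
  classical
  refine ⟨a, b, fun x => if x = b then 1 else 0, rfl, rfl, ?_, ?_⟩
  · simp [hab]
  · have h := s_d0 (p := fun x => if x = b then (1 : ℤ) else 0) (a := a) (b := b) (by simp [hab])
    have hC : Sup (MP_d86530_co.Ed a b) = fun x => x = a ∨ x = b := by
      funext x
      exact propext sup_ed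
    have hR : (fun x => x ∈ [a, b]) = fun x => x = a ∨ x = b := by
      funext x
      simp
    rw [hC, hR]
    exact h

theorem pf_f0 (z c : W) (hzc : z ≠ c) : PF [z] [c] (MP_d86530_co.Ed z c) := by
  classical
  refine ⟨z, z, c, c, rfl, rfl, rfl, rfl, fun _ _ x hx => sup_ed.1 hx, fun near => ?_⟩
  have hC : Sup (MP_d86530_co.Ed z c) = fun x => x = z ∨ x = c := by
    funext x
    exact propext sup_ed
  have hQ : (fun x => x ∈ [z]) = fun x => x = z := by
    funext x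
    simp
  have hR : (fun x => x ∈ [c]) = fun x => x = c := by
    funext x
    simp
  rw [hC, hQ, hR]
  cases near
  · refine ⟨fun x => if x = c then 1 else 0, 2, ?_, ?_, by simp, by simp, ?_⟩
    · simp [hzc]
    · intro x _
      dsimp only
      split_ifs <;> omega
    · exact s_f0 (by simp [hzc])
  · refine ⟨fun x => if x = c then 0 else 1, 2, ?_, ?_, by simp, by simp, ?_⟩
    · simp [hzc]
    · intro x _
      dsimp only
      split_ifs <;> omega
    · exact s_f0 (by simp [hzc])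

theorem pd_di (hdi : S_DI) (w a b : W) (l : List W) (E₁ E : W → W → Prop)
    (hF : PF [w] (a :: l ++ [b]) E₁) (hab : a ≠ b)
    (hE : ∀ u v, E u v ↔ E₁ u v ∨ MP_d86530_co.Ed a b u v) : PD (a :: l ++ [b]) E := by
  obtain ⟨z, q, c, r, h1, h2, h3, h4, -, h5⟩ := hF
  simp only [List.head?_cons, Option.some.injEq, List.getLast?_singleton] at h1 h2
  have e3 : a = c := by simpa using h3
  have e4 : b = r := by
    rw [List.getLast?_append_of_ne_nil _ (by simp)] at h4
    simpa using h4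
  subst h1 h2 e3 e4
  obtain ⟨p, M, hn, -, -, hR, G⟩ := h5 true
  have hn' : p a < p w := hn.2 rfl
  have D := hdi G hn' hab.symm
  have D' := s_de D (E' := E) hE
  have hS : Sup E = Sup E₁ := by
    funext x
    apply propext
    constructor
    · rintro ⟨y, hy⟩
      rcases (hE x y).1 hy with h | ⟨rfl, rfl⟩ | ⟨rfl, rfl⟩
      · exact ⟨y, h⟩
      · exact G.memR _ G.hc
      · exact G.memR _ G.hr
    · rintro ⟨y, hy⟩
      exact ⟨y, (hE x y).2 (Or.inl hy)⟩
  refine ⟨a, b, p, by simp, ?_, hR, ?_⟩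
  · rw [List.getLast?_append_of_ne_nil _ (by simp)]
    simp
  · rw [hS]
    exact D'

theorem pd_dc (hdc : S_DC) (a b x : W) (l m : List W) (E₁ E₂ E : W → W → Prop)
    (h1 : PD (a :: l ++ [x]) E₁) (h2 : PD (x :: m ++ [b]) E₂)
    (h12 : ∀ v, Sup E₁ v → Sup E₂ v → v = x)
    (hE : ∀ u v, E u v ↔ E₁ u v ∨ E₂ u v ∨ MP_d86530_co.Ed a b u v) :
    PD (a :: l ++ x :: m ++ [b]) E := by
  classical
  obtain ⟨r1, t1, p1, e1, e2, P1, D1⟩ := h1
  obtain ⟨r2, t2, p2, e3, e4, P2, D2⟩ := h2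
  have e1' : a = r1 := by simpa using e1
  have e2' : x = t1 := by
    rw [List.getLast?_append_of_ne_nil _ (by simp)] at e2
    simpa using e2
  have e3' : x = r2 := by simpa using e3
  have e4' : b = t2 := by
    rw [List.getLast?_append_of_ne_nil _ (by simp)] at e4
    simpa using e4
  subst e1' e2' e3' e4'
  clear e1 e2 e3 e4
  set p : W → ℤ := fun y => if Sup E₁ y then p1 y else p2 y + (p1 x - p2 x) with hp
  have x1 : Sup E₁ x := D1.memR _ D1.ht
  have x2 : Sup E₂ x := D2.memR _ D2.hr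
  have q1 : ∀ y, Sup E₁ y → p y = p1 y := by
    intro y hy
    simp [hp, hy]
  have q2 : ∀ y, Sup E₂ y → p y = p2 y + (p1 x - p2 x) := by
    intro y hy
    by_cases h : Sup E₁ y
    · have := h12 y h hy
      subst this
      rw [q1 y h]
      omega
    · simp [hp, h]
  have D1' : GD (Sup E₁) E₁ p a x (fun y => y ∈ a :: l ++ [x]) := by
    refine D1.congr fun u v hu hv => ?_
    rw [q1 u hu, q1 v hv]
  have D2' : GD (Sup E₂) E₂ p x b (fun y => y ∈ x :: m ++ [b]) := by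
    refine D2.congr fun u v hu hv => ?_
    rw [q2 u hu, q2 v hv]
    omega
  have hlt : ∀ u v, Sup E₁ u → Sup E₂ v → v ≠ x → p u < p v := by
    intro u v hu hv hvx
    have h1 := D2.lo v hv hvx
    have h2 : p1 u ≤ p1 x := by
      by_cases hux : u = x
      · rw [hux]
      · exact (D1.hi u hu hux).le
    rw [q1 u hu, q2 v hv]
    omega
  have D := hdc (C := fun y => Sup E₁ y ∨ Sup E₂ y) (E := fun u v => E₁ u v ∨ E₂ u v)
    (R := fun y => y ∈ a :: l ++ x :: m ++ [b]) D1' D2' hlt (fun _ => Iff.rfl)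
    (fun _ _ => Iff.rfl) (by
      intro y
      simp only [List.mem_append, List.mem_cons, List.not_mem_nil, or_false]
      tauto)
  have D' := s_de D (E' := E) (fun u v => by
    rw [hE, or_assoc]
    exact Iff.rfl)
  have hS : Sup E = fun y => Sup E₁ y ∨ Sup E₂ y := by
    funext y
    apply propext
    constructor
    · rintro ⟨v, hv⟩
      rcases (hE y v).1 hv with h | h | ⟨rfl, rfl⟩ | ⟨rfl, rfl⟩
      · exact Or.inl ⟨v, h⟩
      · exact Or.inr ⟨v, h⟩
      · exact Or.inl (D1.memR _ D1.hr)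
      · exact Or.inr (D2.memR _ D2.ht)
    · rintro (⟨v, hv⟩ | ⟨v, hv⟩)
      · exact ⟨v, (hE y v).2 (Or.inl hv)⟩
      · exact ⟨v, (hE y v).2 (Or.inr (Or.inl hv))⟩
  refine ⟨a, b, p, by simp, ?_, ?_, ?_⟩
  · rw [List.getLast?_append_of_ne_nil _ (by simp)]
    simp
  · -- sorted
    have s1 : (a :: l ++ [x]).Pairwise (fun u v => p u < p v) := by
      refine P1.imp_of_mem fun hu hv h => ?_
      rw [q1 _ (D1.memR _ hu), q1 _ (D1.memR _ hv)]
      exact h
    have s2 : (x :: m ++ [b]).Pairwise (fun u v => p u < p v) := by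
      refine P2.imp_of_mem fun hu hv h => ?_
      rw [q2 _ (D2.memR _ hu), q2 _ (D2.memR _ hv)]
      omega
    have s3 : (m ++ [b]).Pairwise (fun u v => p u < p v) := by
      rw [List.cons_append, List.pairwise_cons] at s2
      exact s2.2
    have e : a :: l ++ x :: m ++ [b] = (a :: l ++ [x]) ++ (m ++ [b]) := by simp
    rw [e, List.pairwise_append]
    refine ⟨s1, s3, fun u hu v hv => ?_⟩
    have hv' : v ∈ x :: m ++ [b] := by
      simp only [List.mem_append, List.mem_cons, List.not_mem_nil, or_false] at hv ⊢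
      tauto
    refine hlt u v (D1.memR _ hu) (D2.memR _ hv') ?_
    rintro rfl
    rw [List.cons_append, List.pairwise_cons] at s2
    exact lt_irrefl _ (s2.1 _ hv)
  · rw [hS]
    exact D'

theorem pf_fb (z a b : W) (l : List W) (E₁ E : W → W → Prop) (hab : a ≠ b)
    (h1 : PD (a :: l ++ [b]) E₁) (hz : ¬ Sup E₁ z)
    (hE : ∀ u v, E u v ↔ E₁ u v ∨ MP_d86530_co.Ed z a u v ∨ MP_d86530_co.Ed z b u v) :
    PF [z] (a :: l ++ [b]) E := by
  classical
  obtain ⟨r, t, p1, e1, e2, P1, D1⟩ := h1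
  have e1' : a = r := by simpa using e1
  have e2' : b = t := by
    rw [List.getLast?_append_of_ne_nil _ (by simp)] at e2
    simpa using e2
  subst e1' e2'
  clear e1 e2
  have aC : Sup E₁ a := D1.memR _ D1.hr
  have bC : Sup E₁ b := D1.memR _ D1.ht
  have hS : Sup E = fun y => Sup E₁ y ∨ y = z := by
    funext y
    apply propext
    constructor
    · rintro ⟨v, hv⟩
      rcases (hE y v).1 hv with h | (⟨rfl, rfl⟩ | ⟨rfl, rfl⟩) | ⟨rfl, rfl⟩ | ⟨rfl, rfl⟩
      · exact Or.inl ⟨v, h⟩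
      · exact Or.inr rfl
      · exact Or.inl aC
      · exact Or.inr rfl
      · exact Or.inl bC
    · rintro (⟨v, hv⟩ | rfl)
      · exact ⟨v, (hE y v).2 (Or.inl hv)⟩
      · exact ⟨a, (hE y a).2 (Or.inr (Or.inl (Or.inl ⟨rfl, rfl⟩)))⟩
  refine ⟨z, z, a, b, rfl, rfl, by simp, ?_, fun _ h => ?_, fun near => ?_⟩
  · rw [List.getLast?_append_of_ne_nil _ (by simp)]
    simp
  · simp at h
  have hne : ∀ y, Sup E₁ y → y ≠ z := by
    rintro y hy rfl
    exact hz hy
  set s : ℤ := if near = true then 1 else -1 with hs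
  have hs' : (near = true ∧ s = 1) ∨ (¬ near = true ∧ s = -1) := by
    by_cases h : near = true
    · exact Or.inl ⟨h, by simp [hs, h]⟩
    · exact Or.inr ⟨h, by simp [hs, h]⟩
  set p : W → ℤ := fun y => if y = z then 2 * p1 a + s else 2 * p1 y with hp
  have q1 : ∀ y, Sup E₁ y → p y = 2 * p1 y := by
    intro y hy
    simp [hp, hne y hy]
  have q2 : p z = 2 * p1 a + s := by simp [hp]
  have D1' : GD (Sup E₁) E₁ p a b (fun y => y ∈ a :: l ++ [b]) := by
    refine D1.congr fun u v hu hv => ?_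
    rw [q1 u hu, q1 v hv]
    omega
  have F := s_fb (z := z) (C := fun y => Sup E₁ y ∨ y = z)
    (E := fun u v => E₁ u v ∨ MP_d86530_co.Ed z a u v) D1' hz
    (by rw [q2, q1 a aC]; omega)
    (fun x hx hxa => by
      have := D1.lo x hx hxa
      rw [q2, q1 x hx]
      omega) (fun _ => Iff.rfl) (fun _ _ => Iff.rfl)
  have F' := s_an F (E' := E) hab.symm (fun u v => by
    rw [hE, or_assoc]
    exact Iff.rfl)
  refine ⟨p, 2 * p1 b + 2, ?_, ?_, by simp, ?_, ?_⟩
  · rw [q2, q1 a aC]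
    rcases hs' with ⟨h, h'⟩ | ⟨h, h'⟩
    · simp [h, h']
    · simp [h, h']
  · intro x hx
    rw [hS] at hx
    rcases hx with hx | rfl
    · rw [q1 x hx]
      by_cases hxb : x = b
      · rw [hxb]; omega
      · have := D1.hi x hx hxb
        omega
    · rw [q2]
      have := D1.hi a aC hab
      omega
  · refine P1.imp_of_mem fun hu hv h => ?_
    rw [q1 _ (D1.memR _ hu), q1 _ (D1.memR _ hv)]
    omega
  · rw [hS]
    have hQ : (fun x => x ∈ [z]) = fun x => x = z := by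
      funext x
      simp
    rw [hQ]
    exact F'

theorem pf_fd (hfd : S_FD) (Q : List W) (c : W) (E : W → W → Prop) (hnd : (c :: Q.reverse).Nodup)
    (hQ : 2 ≤ Q.length) (h1 : PD (c :: Q.reverse) E) : PF Q [c] E := by
  classical
  obtain ⟨r, t, p1, e1, e2, P1, D1⟩ := h1
  have e1' : c = r := by simpa using e1
  subst e1'
  clear e1
  obtain ⟨z, Q', rfl⟩ : ∃ z Q', Q = z :: Q' := by
    rcases Q with _ | ⟨z, Q'⟩
    · simp at hQ
    · exact ⟨z, Q', rfl⟩
  have hQ' : Q' ≠ [] := by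
    rintro rfl
    simp at hQ
  obtain ⟨Q'', q, rfl⟩ : ∃ Q'' q, Q' = Q'' ++ [q] := by
    rcases List.eq_nil_or_concat Q' with h | ⟨A, q, h⟩
    · exact absurd h hQ'
    · exact ⟨A, q, by simpa using h⟩
  have e2' : z = t := by
    rw [List.reverse_cons, ← List.cons_append, List.getLast?_append_of_ne_nil _ (by simp)] at e2
    simpa using e2
  subst e2'
  clear e2 hQ'
  have hqz : q ≠ z := by
    rintro rfl
    simp at hnd
  have cz : c ≠ z := by
    rintro rfl
    simp at hnd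
  have cQ : c ∉ z :: (Q'' ++ [q]) := by
    intro h
    rw [List.nodup_cons, List.mem_reverse] at hnd
    exact hnd.1 h
  have zC : Sup E z := D1.memR _ D1.ht
  have cC : Sup E c := D1.memR _ D1.hr
  refine ⟨z, q, c, c, by simp, ?_, rfl, rfl, fun h => ?_, fun near => ?_⟩
  · rw [← List.cons_append, List.getLast?_append_of_ne_nil _ (by simp)]
    simp
  · simp at h
  set s : ℤ := if near = true then -1 else 1 with hs
  have hs' : (near = true ∧ s = -1) ∨ (¬ near = true ∧ s = 1) := by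
    by_cases h : near = true
    · exact Or.inl ⟨h, by simp [hs, h]⟩
    · exact Or.inr ⟨h, by simp [hs, h]⟩
  set p : W → ℤ := fun y => if y = c then -2 * p1 z + s else -2 * p1 y with hp
  have q1 : ∀ y, y ≠ c → p y = -2 * p1 y := by
    intro y hy
    simp [hp, hy]
  have q2 : p c = -2 * p1 z + s := by simp [hp]
  have hmem : ∀ x, x ∈ c :: (z :: (Q'' ++ [q])).reverse ↔ x = c ∨ x ∈ z :: (Q'' ++ [q]) := by
    intro x
    rw [List.mem_cons, List.mem_reverse]
  have P2 : (z :: (Q'' ++ [q])).Pairwise (fun x y => p1 y < p1 x) := by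
    rw [List.pairwise_cons, List.pairwise_reverse] at P1
    exact P1.2
  have F := hfd (p := p) (q := q) (Q := fun x => x ∈ z :: (Q'' ++ [q])) D1 hmem cQ (by simp)
    (by simp) hqz
    (by
      intro x hx hxq
      rw [← List.cons_append, List.pairwise_append] at P2
      rw [← List.cons_append, List.mem_append] at hx
      rcases hx with hx | hx
      · exact P2.2.2 x hx q (by simp)
      · simp at hx
        exact absurd hx hxq)
    (by
      intro x y hx hy hxc hyc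
      rw [q1 x hxc, q1 y hyc]
      omega)
    (by
      intro x hx hxc hxz
      have := D1.hi x hx hxz
      rw [q2, q1 x hxc]
      omega)
    (by
      rw [q2, q1 z cz.symm]
      omega)
  have hcz := D1.hi c cC cz
  refine ⟨p, -2 * p1 c + 2, ?_, ?_, ?_, by simp, ?_⟩
  · rw [q2, q1 z cz.symm]
    rcases hs' with ⟨h, h'⟩ | ⟨h, h'⟩
    · simp [h, h']
    · simp [h, h']
  · intro x hx
    by_cases hxc : x = c
    · rw [hxc, q2]
      omega
    · rw [q1 x hxc]
      have := D1.lo x hx hxc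
      omega
  · refine P2.imp_of_mem fun {u v} hu hv h => ?_
    rw [q1 u (by rintro rfl; exact cQ hu), q1 v (by rintro rfl; exact cQ hv)]
    omega
  · have hR : (fun x => x ∈ [c]) = fun x => x = c := by
      funext x
      simp
    rw [hR]
    exact F

theorem glue_cat {C₁ C₂ : W → Prop} {E₁ E₂ : W → W → Prop} {p1 p2 : W → ℤ} {z v c k r : W}
    {Q₁ Qv R₁ R₂ : W → Prop} (X : GF C₁ E₁ p1 z v c k Q₁ R₁) (Y : GF C₂ E₂ p2 v v k r Qv R₂)
    {M1 M2 : ℤ} (hM1 : ∀ x, C₁ x → p1 x < M1) (hM2 : ∀ x, C₂ x → p2 x < M2)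
    (h12 : ∀ x, C₁ x → C₂ x → x = k ∨ x = v) (hvk : p1 k < p1 v ↔ p2 k < p2 v) :
    ∃ (p : W → ℤ) (M : ℤ), (∀ x, C₁ x → p x = p1 x) ∧
      (∀ x y, C₂ x → C₂ y → (p2 x < p2 y ↔ p x < p y)) ∧
      (∀ x y, C₁ x → C₂ y → y ≠ v → y ≠ k → p x < p y) ∧ (∀ x, C₁ x ∨ C₂ x → p x < M) := by
  classical
  have v1 : C₁ v := X.memQ _ X.hq
  have k1 : C₁ k := X.memR _ X.hr
  have v2 : C₂ v := Y.memQ _ Y.hq
  have k2 : C₂ k := Y.memR _ Y.hc
  have hkv : k ≠ v := by
    rintro rfl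
    exact Y.nqc Y.hz
  set p : W → ℤ := fun y => if C₁ y then p1 y else p2 y + (M1 - p2 v) with hp
  have q1 : ∀ y, C₁ y → p y = p1 y := by
    intro y hy
    simp [hp, hy]
  have q2 : ∀ y, C₂ y → y ≠ v → y ≠ k → p y = p2 y + (M1 - p2 v) := by
    intro y hy hyv hyk
    by_cases h : C₁ y
    · rcases h12 y h hy with e | e
      · exact absurd e hyk
      · exact absurd e hyv
    · simp [hp, h]
  have hlt : ∀ x y, C₁ x → C₂ y → y ≠ v → y ≠ k → p x < p y := by
    intro x y hx hy hyv hyk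
    rw [q1 x hx, q2 y hy hyv hyk]
    have := hM1 x hx
    have := (Y.lo y hy hyv hyk).1
    omega
  refine ⟨p, M1 + M2 - p2 v, q1, ?_, hlt, ?_⟩
  · intro x y hx hy
    have hinj := X.inj v k v1 k1
    have hinj2 := Y.inj v k v2 k2
    by_cases hxv : x = v
    · subst hxv
      by_cases hyv : y = x
      · subst hyv; simp
      · by_cases hyk : y = k
        · subst hyk
          rw [q1 x v1, q1 y k1]
          have h1 : p1 x ≠ p1 y := fun e => hkv (hinj e).symm
          have h2 : p2 x ≠ p2 y := fun e => hkv (hinj2 e).symm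
          omega
        · have h1 := hlt x y v1 hy hyv hyk
          have h2 := (Y.lo y hy hyv hyk).1
          omega
    · by_cases hxk : x = k
      · subst hxk
        by_cases hyk : y = x
        · subst hyk; simp
        · by_cases hyv : y = v
          · subst hyv
            rw [q1 x k1, q1 y v1]
            exact hvk.symm
          · have h1 := hlt x y k1 hy hyv hyk
            have h2 := (Y.lo y hy hyv hyk).2
            omega
      · by_cases hyv : y = v
        · subst hyv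
          have h1 := hlt y x v1 hx hxv hxk
          have h2 := (Y.lo x hx hxv hxk).1
          omega
        · by_cases hyk : y = k
          · subst hyk
            have h1 := hlt y x k1 hx hxv hxk
            have h2 := (Y.lo x hx hxv hxk).2
            omega
          · rw [q2 x hx hxv hxk, q2 y hy hyv hyk]
            omega
  · intro x hx
    have hvM := hM2 v v2
    by_cases h1 : C₁ x
    · rw [q1 x h1]
      have := hM1 x h1
      omega
    · have h2 := hx.resolve_left h1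
      have hxv : x ≠ v := by rintro rfl; exact h1 v1
      have hxk : x ≠ k := by rintro rfl; exact h1 k1
      rw [q2 x h2 hxv hxk]
      have := hM2 x h2
      omega

theorem pairwise_last {p : W → ℤ} {l : List W} (h : l.Pairwise (fun x y => p x < p y)) {q : W}
    (hq : l.getLast? = some q) {x : W} (hx : x ∈ l) (hxq : x ≠ q) : p x < p q := by
  rcases List.eq_nil_or_concat l with rfl | ⟨A, t, rfl⟩
  · simp at hx
  · rw [List.concat_eq_append] at *
    have e : t = q := by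
      rw [List.getLast?_append_of_ne_nil _ (by simp)] at hq
      simpa using hq
    subst e
    rw [List.pairwise_append] at h
    rw [List.mem_append] at hx
    rcases hx with hx | hx
    · exact h.2.2 x hx t (by simp)
    · simp at hx
      exact absurd hx hxq

theorem pf_cat {E₁ E₂ : W → W → Prop} {Q Q₁ R₁ m : List W} {v x z q c b : W}
    (hX : PF Q₁ (R₁ ++ [x]) E₁) (hY : PF [v] (x :: m) E₂)
    (hv : Q₁.getLast? = some v) (hz1 : Q₁.head? = some z) (hc : (R₁ ++ [x]).head? = some c)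
    (hb : (x :: m).getLast? = some b) (e1 : E₁ x v)
    (h12 : ∀ u, Sup E₁ u → Sup E₂ u → u = x ∨ u = v)
    (hQ : Q.Sublist Q₁) (hQv : v ∈ Q → v = z) (hz : z ∈ Q) (hq : Q.getLast? = some q)
    (near : Bool) : ∃ (p : W → ℤ) (M : ℤ), (p c < p z ↔ near = true) ∧
      (∀ u, (Sup E₁ u ∨ Sup E₂ u) → p u < M) ∧ Q.Pairwise (fun x y => p x < p y) ∧
      (R₁ ++ x :: m).Pairwise (fun x y => p x < p y) ∧
      GF (fun u => Sup E₁ u ∨ Sup E₂ u) (fun u w => E₁ u w ∨ E₂ u w) p z q c b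
        (fun u => u ∈ Q) (fun u => u ∈ R₁ ++ x :: m) := by
  classical
  obtain ⟨z1, v1, c1, x1, e3, e4, e5, e6, -, h1⟩ := hX
  obtain rfl : z = z1 := by rw [hz1] at e3; simpa using e3
  obtain rfl : v = v1 := by rw [hv] at e4; simpa using e4
  obtain rfl : c = c1 := by rw [hc] at e5; simpa using e5
  obtain rfl : x = x1 := by
    rw [List.getLast?_append_of_ne_nil _ (by simp)] at e6
    simpa using e6
  clear e3 e4 e5 e6
  obtain ⟨v2, v3, x2, b2, e3, e4, e5, e6, ht, h2⟩ := hY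
  obtain rfl : v = v2 := by simpa using e3
  obtain rfl : v = v3 := by simpa using e4
  obtain rfl : x = x2 := by simpa using e5
  obtain rfl : b = b2 := by rw [hb] at e6; simpa using e6
  clear e3 e4 e5 e6
  obtain ⟨p1, M1, n1, M1b, s1, s2, X⟩ := h1 near
  obtain ⟨p2, M2, n2, M2b, -, s3, Y⟩ := h2 (decide (p1 x < p1 v))
  have n2' : p1 x < p1 v ↔ p2 x < p2 v := by
    rw [n2, decide_eq_true_iff]
  obtain ⟨p, M, q1, q2, hlt, hM⟩ := glue_cat X Y M1b M2b h12 n2'
  have X' : GF (Sup E₁) E₁ p z v c x (fun y => y ∈ Q₁) (fun y => y ∈ R₁ ++ [x]) := by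
    refine X.congr fun u w hu hw => ?_
    rw [q1 u hu, q1 w hw]
  have Y' : GF (Sup E₂) E₂ p v v x b (fun y => y = v) (fun y => y ∈ x :: m) := by
    have hv' : (fun y => y ∈ [v]) = fun y => y = v := by
      funext y
      simp
    rw [hv'] at Y
    exact Y.congr q2
  have vC1 : Sup E₁ v := X.memQ _ X.hq
  have zC1 : Sup E₁ z := X.memQ _ X.hz
  have cC1 : Sup E₁ c := X.memR _ X.hc
  have xC1 : Sup E₁ x := X.memR _ X.hr
  have hQ1 : ∀ u, u ∈ Q → u ∈ Q₁ := fun u hu => hQ.subset hu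
  have sQ1 : Q₁.Pairwise (fun x y => p x < p y) := by
    refine s1.imp_of_mem fun {u w} hu hw h => ?_
    rw [q1 u (X.memQ _ hu), q1 w (X.memQ _ hw)]
    exact h
  have sQ : Q.Pairwise (fun x y => p x < p y) := sQ1.sublist hQ
  have sR1 : (R₁ ++ [x]).Pairwise (fun x y => p x < p y) := by
    refine s2.imp_of_mem fun {u w} hu hw h => ?_
    rw [q1 u (X.memR _ hu), q1 w (X.memR _ hw)]
    exact h
  have sR2 : (x :: m).Pairwise (fun x y => p x < p y) := by
    refine s3.imp_of_mem fun {u w} hu hw h => ?_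
    exact (q2 u w (Y.memR _ hu) (Y.memR _ hw)).1 h
  refine ⟨p, M, ?_, hM, sQ, ?_, ?_⟩
  · rw [q1 c cC1, q1 z zC1]
    exact n1
  · rw [List.pairwise_append] at sR1 ⊢
    refine ⟨sR1.1, sR2, fun u hu w hw => ?_⟩
    rw [List.mem_cons] at hw
    rcases hw with rfl | hw
    · exact sR1.2.2 u hu w (by simp)
    · have h3 := sR1.2.2 u hu x (by simp)
      rw [List.pairwise_cons] at sR2
      have h4 := sR2.1 w hw
      omega
  · refine s_cat (v := v) (k := x) (Q₁ := fun y => y ∈ Q₁) (R₁ := fun y => y ∈ R₁ ++ [x])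
      (R₂ := fun y => y ∈ x :: m) X' Y' hlt (X'.symm _ _ e1) ?_ (fun _ => Iff.rfl)
      (fun _ _ => Iff.rfl) ?_ hQ1 hQv hz ?_ ?_
    · rintro rfl u hu
      refine ht (by simp) ?_ u hu
      rcases m with _ | ⟨w, m⟩
      · simp
      · exfalso
        rw [List.pairwise_cons] at sR2
        have hbm : b ∈ w :: m := by
          have h5 : (w :: m).getLast? = some b := by
            rw [List.getLast?_cons_cons] at hb
            exact hb
          exact List.mem_of_getLast? h5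
        exact lt_irrefl _ (sR2.1 b hbm)
    · intro u
      simp only [List.mem_append, List.mem_cons, List.not_mem_nil, or_false]
      tauto
    · exact List.mem_of_getLast? hq
    · intro u hu huq
      exact pairwise_last sQ hq hu huq

theorem pf_fc (z a b x : W) (l m : List W) (E₁ E₂ E : W → W → Prop)
    (h1 : PF [z] (a :: l ++ [x]) E₁) (h2 : PF [z] (x :: m ++ [b]) E₂) (e1 : E₁ x z)
    (h12 : ∀ v, Sup E₁ v → Sup E₂ v → v = x ∨ v = z)
    (hE : ∀ u v, E u v ↔ E₁ u v ∨ E₂ u v) : PF [z] (a :: l ++ x :: m ++ [b]) E := by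
  have hEe : E = fun u v => E₁ u v ∨ E₂ u v := by
    funext u v
    exact propext (hE u v)
  have hS : Sup E = fun u => Sup E₁ u ∨ Sup E₂ u := by
    funext y
    apply propext
    constructor
    · rintro ⟨v, hv⟩
      rcases (hE y v).1 hv with h | h
      · exact Or.inl ⟨v, h⟩
      · exact Or.inr ⟨v, h⟩
    · rintro (⟨v, hv⟩ | ⟨v, hv⟩)
      · exact ⟨v, (hE y v).2 (Or.inl hv)⟩
      · exact ⟨v, (hE y v).2 (Or.inr hv)⟩
  have hlast : (x :: (m ++ [b])).getLast? = some b := by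
    rw [← List.cons_append, List.getLast?_append_of_ne_nil _ (by simp)]
    simp
  have el : a :: l ++ x :: m ++ [b] = (a :: l) ++ x :: (m ++ [b]) := by simp
  refine ⟨z, z, a, b, rfl, rfl, by simp, ?_, fun _ h => ?_, fun near => ?_⟩
  · rw [List.getLast?_append_of_ne_nil _ (by simp)]
    simp
  · simp at h
  · have := pf_cat (Q := [z]) (Q₁ := [z]) (R₁ := a :: l) (m := m ++ [b]) (v := z) (x := x)
      (z := z) (q := z) (c := a) (b := b) h1 (by simpa using h2) rfl rfl (by simp) hlast e1 h12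
      (List.Sublist.refl _) (fun _ => rfl) (by simp) rfl near
    rw [hS, el, hEe]
    exact this

theorem pf_fa (Q : List W) (q v x b : W) (R₁ m R' : List W) (E₁ E₂ E : W → W → Prop)
    (hR : R₁ ++ x :: m = R' ++ [b]) (hR' : R' ≠ []) (hnd : (Q ++ q :: v :: (R' ++ [b])).Nodup)
    (h1 : PF (Q ++ [q, v]) (R₁ ++ [x]) E₁) (h2 : PF [v] (x :: m) E₂) (e1 : E₁ x v)
    (h12 : ∀ u, Sup E₁ u → Sup E₂ u → u = x ∨ u = v)
    (hE : ∀ u w, E u w ↔ E₁ u w ∨ E₂ u w ∨ MP_d86530_co.Ed q b u w) :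
    PF (Q ++ [q]) (R' ++ [b]) E := by
  obtain ⟨c, R'', rfl⟩ : ∃ c R'', R' = c :: R'' := by
    rcases R' with _ | ⟨c, R''⟩
    · exact absurd rfl hR'
    · exact ⟨c, R'', rfl⟩
  obtain ⟨z, hz⟩ : ∃ z, (Q ++ [q]).head? = some z := by
    rcases Q with _ | ⟨z, Q⟩
    · exact ⟨q, rfl⟩
    · exact ⟨z, rfl⟩
  have hz1 : (Q ++ [q, v]).head? = some z := by
    rcases Q with _ | ⟨z, Q⟩
    · simpa using hz
    · simpa using hz
  have hv : (Q ++ [q, v]).getLast? = some v := by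
    rw [List.getLast?_append_of_ne_nil _ (by simp)]
    simp
  have hc : (R₁ ++ [x]).head? = some c := by
    rcases R₁ with _ | ⟨r, R₁⟩
    · simp only [List.nil_append, List.cons_append, List.cons.injEq] at hR
      simp [hR.1]
    · simp only [List.cons_append, List.cons.injEq] at hR
      simp [hR.1]
  have hb : (x :: m).getLast? = some b := by
    have h3 : (R₁ ++ x :: m).getLast? = some b := by
      rw [hR, List.getLast?_append_of_ne_nil _ (by simp)]
      simp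
    rwa [List.getLast?_append_of_ne_nil _ (by simp)] at h3
  have hq : (Q ++ [q]).getLast? = some q := by
    rw [List.getLast?_append_of_ne_nil _ (by simp)]
    simp
  have hsub : (Q ++ [q]).Sublist (Q ++ [q, v]) := by
    have : Q ++ [q, v] = (Q ++ [q]) ++ [v] := by simp
    rw [this]
    exact List.sublist_append_left _ _
  have hvQ : v ∉ Q ++ [q] := by
    intro h
    have h3 : (Q ++ [q] ++ v :: (c :: R'' ++ [b])).Nodup := by
      simpa using hnd
    rw [List.nodup_append] at h3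
    exact h3.2.2 v h v (by simp) rfl
  have hbc : b ≠ c := by
    rintro rfl
    have h3 : (Q ++ [q, v] ++ (b :: R'' ++ [b])).Nodup := by
      simpa using hnd
    rw [List.nodup_append] at h3
    have h4 := h3.2.1
    simp at h4
  refine ⟨z, q, c, b, hz, hq, by simp, ?_, fun _ h => ?_, fun near => ?_⟩
  · rw [List.getLast?_append_of_ne_nil _ (by simp)]
    simp
  · simp at h
  · obtain ⟨p, M, n, hM, sQ, sR, G⟩ := pf_cat (Q := Q ++ [q]) h1 h2 hv hz1 hc hb e1 h12 hsub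
      (fun h => absurd h hvQ) (List.mem_of_head? hz) hq near
    rw [hR] at sR G
    have G' := s_an G (E' := E) hbc (fun u w => by
      rw [hE, or_assoc]
      exact Iff.rfl)
    have hS : Sup E = fun u => Sup E₁ u ∨ Sup E₂ u := by
      funext y
      apply propext
      constructor
      · rintro ⟨v, hv⟩
        rcases (hE y v).1 hv with h | h | ⟨rfl, rfl⟩ | ⟨rfl, rfl⟩
        · exact Or.inl ⟨v, h⟩
        · exact Or.inr ⟨v, h⟩
        · exact G.memQ _ G.hq
        · exact G.memR _ G.hr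
      · rintro (⟨v, hv⟩ | ⟨v, hv⟩)
        · exact ⟨v, (hE y v).2 (Or.inl hv)⟩
        · exact ⟨v, (hE y v).2 (Or.inr (Or.inl hv))⟩
    refine ⟨p, M, n, ?_, sQ, sR, ?_⟩
    · rw [hS]
      exact hM
    · rw [hS]
      exact G'

theorem discClosed (hdc : S_DC) (hdi : S_DI) (hfd : S_FD) :
    DiscClosed (W := W) PD PF where
  edge := pd_edge
  dc := by
    intro a b x l m E₁ E₂ E _ _ _ _ h1 h2 h12 hE
    exact pd_dc hdc a b x l m E₁ E₂ E h1 h2 h12 hE
  di := by
    intro w a b l E₁ E hnd _ _ h1 _ hE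
    refine pd_di hdi w a b l E₁ E h1 ?_ hE
    rintro rfl
    simp at hnd
  f0 := pf_f0
  fd := by
    intro Q c E hnd _ hQ h
    exact pf_fd hfd Q c E hnd hQ h
  fb := by
    intro z a b l E₁ E hnd _ _ h1 hz hE
    refine pf_fb z a b l E₁ E ?_ h1 hz hE
    rintro rfl
    simp at hnd
  fc := by
    intro z a b x l m E₁ E₂ E _ _ _ _ h1 h2 e1 _ h12 hE
    exact pf_fc z a b x l m E₁ E₂ E h1 h2 e1 h12 hE
  fa := by
    intro Q q v x b R₁ m R' E₁ E₂ E hR hR' hnd _ _ _ h1 h2 e1 _ h12 _ _ hE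
    exact pf_fa Q q v x b R₁ m R' E₁ E₂ E hR hR' hnd h1 h2 e1 h12 hE

/-- the conclusion of the order part: no four pairwise crossing edges -/
theorem PD.noTwist {l : List W} {E : W → W → Prop} (h : PD l E) : ∃ p : W → ℤ,
    (∀ x y, Sup E x → Sup E y → p x = p y → x = y) ∧
    ∀ a₁ a₂ a₃ a₄ b₁ b₂ b₃ b₄, E a₁ b₁ → E a₂ b₂ → E a₃ b₃ → E a₄ b₄ →
    p a₁ < p a₂ → p a₂ < p a₃ → p a₃ < p a₄ → p a₄ < p b₁ → p b₁ < p b₂ → p b₂ < p b₃ →
    p b₃ < p b₄ → False := by
  obtain ⟨r, t, p, -, -, -, D⟩ := h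
  exact ⟨p, D.inj, D.d1⟩

end Pool.Agent.Lib.MP_d86530_co.Lv
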