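import Pool.Agent.Lib.MP_d86530_co.Lv.Stm

set_option autoImplicit false

namespace Pool.Agent.Lib.MP_d86530_co.Lv

section
variable {V : Type} {C₁ C₂ : V → Prop} {E₁ E₂ : V → V → Prop} {p : V → ℤ} {z q v c k r : V}
  {Q Q₁ Qv R₁ R₂ R : V → Prop}

/-- an increasing edge of the union is an edge of the left part, or ends in the right part -/
theorem cat_typ (X : GF C₁ E₁ p z v c k Q₁ R₁) (Y : GF C₂ E₂ p v v k r Qv R₂)
    (hp : ∀ x y, C₁ x → C₂ y → y ≠ v → y ≠ k → p x < p y) (hvk : E₁ v k)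
    {a b : V} (h : E₁ a b ∨ E₂ a b) (hab : p a < p b) :
    (E₁ a b ∧ C₁ a ∧ C₁ b) ∨ (E₂ a b ∧ (C₂ b ∧ b ≠ v ∧ b ≠ k) ∧ (∀ x, C₁ x → p x < p b) ∧
      (a = v ∨ a = k ∨ (C₂ a ∧ a ≠ v ∧ a ≠ k ∧ ∀ x, C₁ x → p x < p a))) := by
  rcases h with h | h
  · exact Or.inl ⟨h, X.memE _ _ h⟩
  · have hC := Y.memE _ _ h
    by_cases hbv : b = v
    · subst hbv
      by_cases hak : a = k
      · subst hak
        left
        exact ⟨X.symm _ _ hvk, X.memE _ _ (X.symm _ _ hvk)⟩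
      · by_cases hav : a = b
        · subst hav; exact absurd rfl (Y.irr _ _ h)
        · have := (Y.lo a hC.1 hav hak).1
          omega
    · by_cases hbk : b = k
      · subst hbk
        by_cases hav : a = v
        · subst hav
          left
          exact ⟨hvk, X.memE _ _ hvk⟩
        · by_cases hak : a = b
          · subst hak; exact absurd rfl (Y.irr _ _ h)
          · have := (Y.lo a hC.1 hav hak).2
            omega
      · right
        refine ⟨h, ⟨hC.2, hbv, hbk⟩, fun x hx => hp x b hx hC.2 hbv hbk, ?_⟩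
        by_cases hav : a = v
        · exact Or.inl hav
        · by_cases hak : a = k
          · exact Or.inr (Or.inl hak)
          · exact Or.inr (Or.inr ⟨hC.1, hav, hak, fun x hx => hp x a hx hC.1 hav hak⟩)

/-- only the other anchor can be below an anchor -/
theorem GF.below (X : GF C₁ E₁ p z v c k Q₁ R₁) {x : V} (hx : C₁ x) (h : p x < p c) : x = z := by
  by_contra hne
  have hxc : x ≠ c := by rintro rfl; exact lt_irrefl _ h
  have := (X.lo x hx hne hxc).2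
  omega

theorem GF.belowz (X : GF C₁ E₁ p z v c k Q₁ R₁) {x : V} (hx : C₁ x) (h : p x < p z) : x = c := by
  by_contra hne
  have hxc : x ≠ z := by rintro rfl; exact lt_irrefl _ h
  have := (X.lo x hx hxc hne).1
  omega

theorem GF.above (X : GF C₁ E₁ p z v c k Q₁ R₁) {x : V} (hx : C₁ x) (h : p k < p x) : k = c := by
  by_contra hne
  have := X.hi hne x hx (by rintro rfl; exact lt_irrefl _ h)
  omega

theorem cat_f1 (X : GF C₁ E₁ p z v c k Q₁ R₁) (Y : GF C₂ E₂ p v v k r Qv R₂)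
    (hp : ∀ x y, C₁ x → C₂ y → y ≠ v → y ≠ k → p x < p y) (hvk : E₁ v k)
    (a₁ a₂ a₃ a₄ b₁ b₂ b₃ b₄ : V) (h1 : E₁ a₁ b₁ ∨ E₂ a₁ b₁) (h2 : E₁ a₂ b₂ ∨ E₂ a₂ b₂)
    (h3 : E₁ a₃ b₃ ∨ E₂ a₃ b₃) (h4 : E₁ a₄ b₄ ∨ E₂ a₄ b₄)
    (o1 : p a₁ < p a₂) (o2 : p a₂ < p a₃) (o3 : p a₃ < p a₄) (o4 : p a₄ < p b₁)
    (o5 : p b₁ < p b₂) (o6 : p b₂ < p b₃) (o7 : p b₃ < p b₄) : False := by
  have kC : C₁ k := X.memR _ X.hr
  have vC : C₁ v := X.memQ _ X.hq
  have zC : C₁ z := X.memQ _ X.hz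
  have cC : C₁ c := X.memR _ X.hc
  have hik : ∀ x, C₁ x → p k < p x → k = c := fun x hx h => X.above hx h
  have blc : ∀ x, C₁ x → p x < p c → x = z := fun x hx h => X.below hx h
  have blz : ∀ x, C₁ x → p x < p z → x = c := fun x hx h => X.belowz hx h
  have t1 := cat_typ X Y hp hvk h1 (by omega)
  have t2 := cat_typ X Y hp hvk h2 (by omega)
  have t3 := cat_typ X Y hp hvk h3 (by omega)
  have t4 := cat_typ X Y hp hvk h4 (by omega)
  clear h1 h2 h3 h4
  rcases t4 with ⟨h4, m4, n4⟩ | ⟨h4, m4, n4, l4⟩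
  · rcases t3 with ⟨h3, m3, n3⟩ | ⟨h3, m3, n3, l3⟩
    · rcases t2 with ⟨h2, m2, n2⟩ | ⟨h2, m2, n2, l2⟩
      · rcases t1 with ⟨h1, m1, n1⟩ | ⟨h1, m1, n1, l1⟩
        · exact X.f1 a₁ a₂ a₃ a₄ b₁ b₂ b₃ b₄ h1 h2 h3 h4 o1 o2 o3 o4 o5 o6 o7
        · have := n1 _ n4; omega
      · have := n2 _ n4; omega
    · have := n3 _ n4; omega
  · have v4 : ∀ x, C₁ x → p x < p b₄ := n4
    clear n4
    rcases l4 with l4 | l4 | ⟨q1, q2, q3, l4⟩
    · subst l4
      -- a₄ = v
      rcases t3 with ⟨h3, m3, n3⟩ | ⟨h3, m3, n3, l3⟩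
      · rcases t2 with ⟨h2, m2, n2⟩ | ⟨h2, m2, n2, l2⟩
        · rcases t1 with ⟨h1, m1, n1⟩ | ⟨h1, m1, n1, l1⟩
          · by_cases hv : a₄ = z
            · subst hv
              have e1 := blz a₁ m1 (by omega)
              have e2 := blz a₂ m2 (by omega)
              subst e1 e2
              omega
            · exact X.f2 a₄ (Or.inl X.hq) hv (fun e => X.nqc (e ▸ X.hq)) a₁ a₂ a₃ b₁ b₂ b₃ h1 h2 h3
                o1 o2 o3 o4 o5 o6
          · have := n1 _ n3; omega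
        · have := n2 _ n3; omega
      · rcases l3 with l3 | l3 | ⟨q1, q2, q3, l3⟩
        · subst l3; omega
        · subst l3
          have e := hik _ vC o3
          subst e
          grind
        · have := l3 _ vC; omega
    · subst l4
      rcases t1 with ⟨h1, m1, n1⟩ | ⟨h1, m1, n1, l1⟩
      · have e := hik _ n1 o4
        subst e
        grind
      · grind
    · have y1 : E₂ a₁ b₁ := by
        rcases t1 with ⟨h1, m1, n1⟩ | ⟨h1, -⟩
        · have := l4 _ n1; omega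
        · exact h1
      have y2 : E₂ a₂ b₂ := by
        rcases t2 with ⟨h1, m1, n1⟩ | ⟨h1, -⟩
        · have := l4 _ n1; omega
        · exact h1
      have y3 : E₂ a₃ b₃ := by
        rcases t3 with ⟨h1, m1, n1⟩ | ⟨h1, -⟩
        · have := l4 _ n1; omega
        · exact h1
      exact Y.f1 a₁ a₂ a₃ a₄ b₁ b₂ b₃ b₄ y1 y2 y3 h4 o1 o2 o3 o4 o5 o6 o7

theorem cat_f2 (X : GF C₁ E₁ p z v c k Q₁ R₁) (Y : GF C₂ E₂ p v v k r Qv R₂)
    (hp : ∀ x y, C₁ x → C₂ y → y ≠ v → y ≠ k → p x < p y) (hvk : E₁ v k)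
    (x : V) (hx : (Q₁ x ∧ x ≠ v) ∨ R₁ x ∨ R₂ x) (hxz : x ≠ z) (hxc : x ≠ c)
    (a₁ a₂ a₃ b₁ b₂ b₃ : V) (h1 : E₁ a₁ b₁ ∨ E₂ a₁ b₁) (h2 : E₁ a₂ b₂ ∨ E₂ a₂ b₂)
    (h3 : E₁ a₃ b₃ ∨ E₂ a₃ b₃)
    (o1 : p a₁ < p a₂) (o2 : p a₂ < p a₃) (o3 : p a₃ < p x) (o4 : p x < p b₁)
    (o5 : p b₁ < p b₂) (o6 : p b₂ < p b₃) : False := by
  have kC : C₁ k := X.memR _ X.hr
  have vC : C₁ v := X.memQ _ X.hq
  have zC : C₁ z := X.memQ _ X.hz
  have cC : C₁ c := X.memR _ X.hc
  have hik : ∀ x, C₁ x → p k < p x → k = c := fun x hx h => X.above hx h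
  have blc : ∀ x, C₁ x → p x < p c → x = z := fun x hx h => X.below hx h
  have blz : ∀ x, C₁ x → p x < p z → x = c := fun x hx h => X.belowz hx h
  have t1 := cat_typ X Y hp hvk h1 (by omega)
  have t2 := cat_typ X Y hp hvk h2 (by omega)
  have t3 := cat_typ X Y hp hvk h3 (by omega)
  clear h1 h2 h3
  have key : ∀ x, (Q₁ x ∨ R₁ x) → C₁ x → x ≠ z → x ≠ c → p a₃ < p x → p x < p b₁ →
      (p x < p v ∨ (R₁ x ∧ x ≠ k)) → False := by
    intro x hx hC hxz hxc o3 o4 hc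
    rcases t3 with ⟨h3, m3, n3⟩ | ⟨h3, m3, n3, l3⟩
    · rcases t2 with ⟨h2, m2, n2⟩ | ⟨h2, m2, n2, l2⟩
      · rcases t1 with ⟨h1, m1, n1⟩ | ⟨h1, m1, n1, l1⟩
        · exact X.f2 x hx hxz hxc a₁ a₂ a₃ b₁ b₂ b₃ h1 h2 h3 o1 o2 o3 o4 o5 o6
        · have := n1 _ n3; omega
      · have := n2 _ n3; omega
    · -- `e₃` of type Y
      rcases l3 with l3 | l3 | ⟨q1, q2, q3, l3⟩
      · subst l3
        rcases hc with hc | ⟨hc, hck⟩
        · omega
        · have hs := X.s1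
          have hkc : k ≠ c := fun e => hxc (X.rc e x hc)
          rcases t2 with ⟨h2, m2, n2⟩ | ⟨h2, m2, n2, l2⟩
          · rcases t1 with ⟨h1, m1, n1⟩ | ⟨h1, m1, n1, l1⟩
            · by_cases hv : a₃ = z
              · grind
              · have := hs hv x hc hxc
                grind
            · grind
          · grind
      · subst l3
        have e := hik _ hC o3
        subst e
        grind
      · grind
  rcases hx with ⟨hx, hxv⟩ | hx | hx
  · have := X.qq x hx hxv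
    exact key x (Or.inl hx) (X.memQ _ hx) hxz hxc o3 o4 (Or.inl this)
  · by_cases hxk : x = k
    · subst hxk
      grind
    · exact key x (Or.inr hx) (X.memR _ hx) hxz hxc o3 o4 (Or.inr ⟨hx, hxk⟩)
  · by_cases hxk : x = k
    · subst hxk
      grind
    · have hxC := Y.memR _ hx
      have hxv : x ≠ v := by
        rintro rfl
        have := Y.qr x x Y.hz hx hxk
        omega
      have hl : ∀ y, C₁ y → p y < p x := fun y hy => hp y x hy hxC hxv hxk
      have y1 : E₂ a₁ b₁ := by grind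
      have y2 : E₂ a₂ b₂ := by grind
      have y3 : E₂ a₃ b₃ := by grind
      exact Y.f2 x (Or.inr hx) hxv hxk a₁ a₂ a₃ b₁ b₂ b₃ y1 y2 y3 o1 o2 o3 o4 o5 o6

theorem cat_ec (X : GF C₁ E₁ p z v c k Q₁ R₁) (Y : GF C₂ E₂ p v v k r Qv R₂)
    (hp : ∀ x y, C₁ x → C₂ y → y ≠ v → y ≠ k → p x < p y) (hvk : E₁ v k)
    {y : V} (h : E₁ c y ∨ E₂ c y) : (E₁ c y ∧ C₁ y) ∨ (c = k ∧ E₂ c y ∧ C₂ y ∧ y ≠ v ∧ y ≠ k) := by
  have cC : C₁ c := X.memR _ X.hc
  have cv : c ≠ v := fun e => X.nqc (e ▸ X.hq)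
  rcases h with h | h
  · exact Or.inl ⟨h, (X.memE _ _ h).2⟩
  · have hC := Y.memE _ _ h
    have hck : c = k := by
      by_contra hne
      have := hp c c cC hC.1 cv hne
      omega
    by_cases hyv : y = v
    · left
      rw [hyv, hck]
      exact ⟨X.symm _ _ hvk, X.memQ _ X.hq⟩
    · right
      exact ⟨hck, h, hC.2, hyv, fun e => Y.irr _ _ h (by rw [hck, e])⟩

theorem cat_f3 (X : GF C₁ E₁ p z v c k Q₁ R₁) (Y : GF C₂ E₂ p v v k r Qv R₂)
    (hp : ∀ x y, C₁ x → C₂ y → y ≠ v → y ≠ k → p x < p y) (hvk : E₁ v k)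
    (x : V) (hx : (Q₁ x ∧ x ≠ v) ∨ R₁ x ∨ R₂ x) (hxz : x ≠ z) (hxc : x ≠ c)
    (y : V) (hy : E₁ c y ∨ E₂ c y) (hyx : p y < p x)
    (a₁ a₂ b₁ b₂ : V) (h1 : E₁ a₁ b₁ ∨ E₂ a₁ b₁) (h2 : E₁ a₂ b₂ ∨ E₂ a₂ b₂)
    (c1 : a₁ ≠ c) (c2 : a₂ ≠ c)
    (o1 : p a₁ < p a₂) (o2 : p a₂ < p y) (o4 : p x < p b₁)
    (o5 : p b₁ < p b₂) : False := by
  have kC : C₁ k := X.memR _ X.hr
  have vC : C₁ v := X.memQ _ X.hq
  have zC : C₁ z := X.memQ _ X.hz
  have cC : C₁ c := X.memR _ X.hc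
  have hik : ∀ x, C₁ x → p k < p x → k = c := fun x hx h => X.above hx h
  have blc : ∀ x, C₁ x → p x < p c → x = z := fun x hx h => X.below hx h
  have blz : ∀ x, C₁ x → p x < p z → x = c := fun x hx h => X.belowz hx h
  have t1 := cat_typ X Y hp hvk h1 (by omega)
  have t2 := cat_typ X Y hp hvk h2 (by omega)
  clear h1 h2
  have hy' := cat_ec X Y hp hvk hy
  have key : ∀ x, (Q₁ x ∨ R₁ x) → C₁ x → x ≠ z → x ≠ c → p y < p x → p x < p b₁ →
      (p x < p v ∨ (R₁ x ∧ x ≠ k)) → False := by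
    intro x hx hC hxz hxc o3 o4 hc
    have hy1 : E₁ c y := by
      rcases hy' with ⟨hy', -⟩ | ⟨-, -, h1, h2, h3⟩
      · exact hy'
      · have := hp x y hC h1 h2 h3; omega
    rcases t2 with ⟨h2, m2, n2⟩ | ⟨h2, m2, n2, l2⟩
    · rcases t1 with ⟨h1, m1, n1⟩ | ⟨h1, m1, n1, l1⟩
      · exact X.f3 x hx hxz hxc y hy1 o3 a₁ a₂ b₁ b₂ h1 h2 c1 c2 o1 o2 o4 o5
      · have := n1 _ n2; omega
    · rcases l2 with l2 | l2 | ⟨q1, q2, q3, l2⟩
      · subst l2
        rcases hc with hc | ⟨hc, hck⟩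
        · omega
        · have hs := X.s1
          rcases t1 with ⟨h1, m1, n1⟩ | ⟨h1, m1, n1, l1⟩
          · by_cases hv : a₂ = z
            · grind
            · have := hs hv x hc hxc
              grind
          · have hkc : k ≠ c := fun e => hxc (X.rc e x hc)
            grind
      · subst l2
        grind
      · grind
  rcases hx with ⟨hx, hxv⟩ | hx | hx
  · have := X.qq x hx hxv
    exact key x (Or.inl hx) (X.memQ _ hx) hxz hxc hyx o4 (Or.inl this)
  · by_cases hxk : x = k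
    · subst hxk
      grind
    · exact key x (Or.inr hx) (X.memR _ hx) hxz hxc hyx o4 (Or.inr ⟨hx, hxk⟩)
  · by_cases hxk : x = k
    · subst hxk
      grind
    · have hxC := Y.memR _ hx
      have hxv : x ≠ v := by
        rintro rfl
        have := Y.qr x x Y.hz hx hxk
        omega
      have hl : ∀ y, C₁ y → p y < p x := fun y hy => hp y x hy hxC hxv hxk
      have y1 : E₂ a₁ b₁ := by grind
      have y2 : E₂ a₂ b₂ := by grind
      rcases hy' with ⟨hy', hyC⟩ | ⟨e, h0, h1, h2, h3⟩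
      · grind
      · subst e
        exact Y.f3 x (Or.inr hx) hxv hxk y h0 hyx a₁ a₂ b₁ b₂ y1 y2 c1 c2 o1 o2 o4 o5

/-- neighbours of the last vertex -/
theorem cat_er (X : GF C₁ E₁ p z v c k Q₁ R₁) (Y : GF C₂ E₂ p v v k r Qv R₂)
    (hp : ∀ x y, C₁ x → C₂ y → y ≠ v → y ≠ k → p x < p y) (hvk : E₁ v k)
    {x : V} (h : E₁ x r ∨ E₂ x r) (hrk : r ≠ k) : E₂ x r ∧ C₂ x := by
  have hrC := Y.memR _ Y.hr
  have hrv : r ≠ v := by
    intro e
    have := Y.qr v r Y.hz Y.hr hrk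
    rw [e] at this
    omega
  rcases h with h | h
  · have := hp r r (X.memE _ _ h).2 hrC hrv hrk
    omega
  · exact ⟨h, (Y.memE _ _ h).1⟩

theorem cat_f4 (X : GF C₁ E₁ p z v c k Q₁ R₁) (Y : GF C₂ E₂ p v v k r Qv R₂)
    (hp : ∀ x y, C₁ x → C₂ y → y ≠ v → y ≠ k → p x < p y) (hvk : E₁ v k)
    (htr : r = k → ∀ x, C₂ x → x = v ∨ x = k) (hrc : r ≠ c)
    (x y : V) (hx : E₁ x r ∨ E₂ x r) (hy : E₁ c y ∨ E₂ c y) (hyx : p y < p x)
    (a₁ a₂ b₁ b₂ : V) (h1 : E₁ a₁ b₁ ∨ E₂ a₁ b₁) (h2 : E₁ a₂ b₂ ∨ E₂ a₂ b₂)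
    (c1 : a₁ ≠ c) (c2 : a₂ ≠ c) (r1 : b₁ ≠ r) (r2 : b₂ ≠ r)
    (o1 : p a₁ < p a₂) (o2 : p a₂ < p y) (o4 : p x < p b₁)
    (o5 : p b₁ < p b₂) : False := by
  have kC : C₁ k := X.memR _ X.hr
  have vC : C₁ v := X.memQ _ X.hq
  have zC : C₁ z := X.memQ _ X.hz
  have cC : C₁ c := X.memR _ X.hc
  have hik : ∀ x, C₁ x → p k < p x → k = c := fun x hx h => X.above hx h
  have blc : ∀ x, C₁ x → p x < p c → x = z := fun x hx h => X.below hx h
  have blz : ∀ x, C₁ x → p x < p z → x = c := fun x hx h => X.belowz hx h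
  have t1 := cat_typ X Y hp hvk h1 (by omega)
  have t2 := cat_typ X Y hp hvk h2 (by omega)
  clear h1 h2
  have hy' := cat_ec X Y hp hvk hy
  by_cases hrk : r = k
  · -- trivial right part
    subst hrk
    have hYC := htr rfl
    have hy1 : E₁ c y := by
      rcases hy' with ⟨hy', -⟩ | ⟨h0, -⟩
      · exact hy'
      · exact absurd h0.symm hrc
    have hx1 : E₁ x r := by
      rcases hx with hx | hx
      · exact hx
      · rcases hYC x (Y.memE _ _ hx).1 with e | e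
        · rw [e]; exact hvk
        · exact absurd e (Y.irr _ _ hx)
    rcases t1 with ⟨h1, m1, n1⟩ | ⟨h1, m1, n1, l1⟩
    · rcases t2 with ⟨h2, m2, n2⟩ | ⟨h2, m2, n2, l2⟩
      · exact X.f4 hrc x y hx1 hy1 hyx a₁ a₂ b₁ b₂ h1 h2 c1 c2 r1 r2 o1 o2 o4 o5
      · rcases hYC _ m2.1 with e | e
        · exact absurd e m2.2.1
        · exact absurd e m2.2.2
    · rcases hYC _ m1.1 with e | e
      · exact absurd e m1.2.1
      · exact absurd e m1.2.2
  · obtain ⟨hx2, hxC⟩ := cat_er X Y hp hvk hx hrk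
    by_cases hxv : x = v
    · subst hxv
      have hy1 : E₁ c y ∧ C₁ y := by
        rcases hy' with hy' | ⟨-, -, h1, h2, h3⟩
        · exact hy'
        · have := hp _ y vC h1 h2 h3; omega
      have hvz : x ≠ z := by
        rintro rfl
        have := blz y hy1.2 hyx
        exact X.irr _ _ hy1.1 this.symm
      rcases t2 with ⟨h2, m2, n2⟩ | ⟨h2, m2, n2, l2⟩
      · rcases t1 with ⟨h1, m1, n1⟩ | ⟨h1, m1, n1, l1⟩
        · exact X.f3 x (Or.inl X.hq) hvz (fun e => X.nqc (e ▸ X.hq)) y hy1.1 hyx a₁ a₂ b₁ b₂ h1 h2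
            c1 c2 o1 o2 o4 o5
        · have := n1 _ n2; omega
      · grind
    · by_cases hxk : x = k
      · subst hxk
        grind
      · have hl : ∀ y, C₁ y → p y < p x := fun y hy => hp y x hy hxC hxv hxk
        have y1 : E₂ a₁ b₁ := by grind
        have y2 : E₂ a₂ b₂ := by grind
        rcases hy' with ⟨hy', hyC⟩ | ⟨e, h0, h1, h2, h3⟩
        · grind
        · subst e
          exact Y.f4 hrk x y hx2 h0 hyx a₁ a₂ b₁ b₂ y1 y2 c1 c2 r1 r2 o1 o2 o4 o5

theorem cat_f5 (X : GF C₁ E₁ p z v c k Q₁ R₁) (Y : GF C₂ E₂ p v v k r Qv R₂)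
    (hp : ∀ x y, C₁ x → C₂ y → y ≠ v → y ≠ k → p x < p y) (hvk : E₁ v k)
    (htr : r = k → ∀ x, C₂ x → x = v ∨ x = k)
    (w : V) (hw : R₁ w ∨ R₂ w) (hwc : w ≠ c)
    (x y : V) (hx : E₁ x r ∨ E₂ x r) (hy : E₁ c y ∨ E₂ c y) (hyx : p y < p x) (hxw : p x < p w)
    (a b : V) (h : E₁ a b ∨ E₂ a b) (hac : a ≠ c) (hbr : b ≠ r) (hay : p a < p y)
    (hwb : p w < p b) : False := by
  have kC : C₁ k := X.memR _ X.hr
  have vC : C₁ v := X.memQ _ X.hq
  have zC : C₁ z := X.memQ _ X.hz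
  have cC : C₁ c := X.memR _ X.hc
  have hik : ∀ x, C₁ x → p k < p x → k = c := fun x hx h => X.above hx h
  have blc : ∀ x, C₁ x → p x < p c → x = z := fun x hx h => X.below hx h
  have blz : ∀ x, C₁ x → p x < p z → x = c := fun x hx h => X.belowz hx h
  have t := cat_typ X Y hp hvk h (by omega)
  clear h
  have hy' := cat_ec X Y hp hvk hy
  by_cases hrk : r = k
  · -- trivial right part
    subst hrk
    have hYC := htr rfl
    rcases t with ⟨h1, m1, n1⟩ | ⟨h1, m1, n1, l1⟩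
    · have hy1 : E₁ c y := by
        rcases hy' with ⟨hy', -⟩ | ⟨h0, h1, h2, h3, h4⟩
        · exact hy'
        · rcases hYC y h2 with e | e
          · exact absurd e h3
          · exact absurd e h4
      have hx1 : E₁ x r := by
        rcases hx with hx | hx
        · exact hx
        · rcases hYC x (Y.memE _ _ hx).1 with e | e
          · rw [e]; exact hvk
          · exact absurd e (Y.irr _ _ hx)
      have hw1 : R₁ w := by
        rcases hw with hw | hw
        · exact hw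
        · rw [Y.rc rfl w hw]; exact X.hr
      exact X.f5 w hw1 hwc x y hx1 hy1 hyx hxw a b h1 hac hbr hay hwb
    · rcases hYC _ m1.1 with e | e
      · exact absurd e m1.2.1
      · exact absurd e m1.2.2
  · obtain ⟨hx2, hxC⟩ := cat_er X Y hp hvk hx hrk
    have hw' : (R₁ w ∧ C₁ w) ∨ (R₂ w ∧ w ≠ k ∧ w ≠ v ∧ C₂ w ∧ ∀ x, C₁ x → p x < p w) := by
      rcases hw with hw | hw
      · exact Or.inl ⟨hw, X.memR _ hw⟩
      · by_cases hwk : w = k
        · left; rw [hwk]; exact ⟨X.hr, kC⟩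
        · have hwv : w ≠ v := by
            rintro rfl
            have := Y.qr w w Y.hz hw hwk
            omega
          exact Or.inr ⟨hw, hwk, hwv, Y.memR _ hw, fun x hx => hp x w hx (Y.memR _ hw) hwv hwk⟩
    clear hw
    rcases hw' with ⟨hw, hwC⟩ | ⟨hw, hwk, hwv, hwC, hwl⟩
    · have hkc : k ≠ c := fun e => hwc (X.rc e w hw)
      have hxv : x = v := by
        by_contra hxv
        have hxk : x ≠ k := by
          rintro rfl
          exact hkc (hik w hwC hxw)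
        have := hp w x hwC hxC hxv hxk
        omega
      subst hxv
      have hvz : x ≠ z := by grind
      have hs := X.s1 hvz w hw hwc
      grind
    · have tY : E₂ a b ∧ (a = v ∨ a = k ∨ (C₂ a ∧ a ≠ v ∧ a ≠ k ∧ ∀ x, C₁ x → p x < p a)) := by
        rcases t with ⟨h1, m1, n1⟩ | ⟨h1, m1, n1, l1⟩
        · have := hwl _ n1; omega
        · exact ⟨h1, l1⟩
      obtain ⟨hE, hl⟩ := tY
      clear t
      by_cases hxv : x = v
      · subst hxv
        grind
      · have h6 := Y.f6 w hw hwk x hx2 hxv hxw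
        by_cases hxk : x = k
        · subst hxk
          grind
        · have hl' : ∀ y, C₁ y → p y < p x := fun y hy => hp y x hy hxC hxv hxk
          rcases hy' with ⟨hy', hyC⟩ | ⟨e, h0, h1, h2, h3⟩
          · grind
          · subst e
            exact Y.f5 w hw hwk x y hx2 h0 hyx hxw a b hE hac hbr hay hwb

theorem cat_f6 (X : GF C₁ E₁ p z v c k Q₁ R₁) (Y : GF C₂ E₂ p v v k r Qv R₂)
    (hp : ∀ x y, C₁ x → C₂ y → y ≠ v → y ≠ k → p x < p y) (hvk : E₁ v k)
    (htr : r = k → ∀ x, C₂ x → x = v ∨ x = k)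
    (w : V) (hw : R₁ w ∨ R₂ w) (hwc : w ≠ c)
    (x : V) (hx : E₁ x r ∨ E₂ x r) (hxz : x ≠ z) (hxw : p x < p w)
    (u : V) (hu : E₁ z u ∨ E₂ z u) (hwu : p w < p u) : u = r := by
  have kC : C₁ k := X.memR _ X.hr
  have vC : C₁ v := X.memQ _ X.hq
  have zC : C₁ z := X.memQ _ X.hz
  have cC : C₁ c := X.memR _ X.hc
  have hik : ∀ x, C₁ x → p k < p x → k = c := fun x hx h => X.above hx h
  have blc : ∀ x, C₁ x → p x < p c → x = z := fun x hx h => X.below hx h
  have blz : ∀ x, C₁ x → p x < p z → x = c := fun x hx h => X.belowz hx h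
  have hzk : z ≠ k := by
    rintro rfl
    by_cases hkc : z = c
    · exact X.nqc (hkc ▸ X.hz)
    · have := X.qr z z X.hz X.hr hkc
      omega
  have hz2 : C₂ z → z = v := by
    intro h
    by_contra hne
    have := hp z z zC h hne hzk
    omega
  by_cases hrk : r = k
  · -- trivial right part
    subst hrk
    have hYC := htr rfl
    have hx1 : E₁ x r := by
      rcases hx with hx | hx
      · exact hx
      · rcases hYC x (Y.memE _ _ hx).1 with e | e
        · rw [e]; exact hvk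
        · exact absurd e (Y.irr _ _ hx)
    have hw1 : R₁ w := by
      rcases hw with hw | hw
      · exact hw
      · rw [Y.rc rfl w hw]; exact X.hr
    rcases hu with hu | hu
    · exact X.f6 w hw1 hwc x hx1 hxz hxw u hu hwu
    · have e := hz2 (Y.memE _ _ hu).1
      rcases hYC u (Y.memE _ _ hu).2 with e' | e'
      · exact absurd (e.trans e'.symm) (Y.irr _ _ hu)
      · exact e'
  · obtain ⟨hx2, hxC⟩ := cat_er X Y hp hvk hx hrk
    have hw' : (R₁ w ∧ C₁ w) ∨ (R₂ w ∧ w ≠ k ∧ w ≠ v ∧ C₂ w ∧ ∀ x, C₁ x → p x < p w) := by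
      rcases hw with hw | hw
      · exact Or.inl ⟨hw, X.memR _ hw⟩
      · by_cases hwk : w = k
        · left; rw [hwk]; exact ⟨X.hr, kC⟩
        · have hwv : w ≠ v := by
            rintro rfl
            have := Y.qr w w Y.hz hw hwk
            omega
          exact Or.inr ⟨hw, hwk, hwv, Y.memR _ hw, fun x hx => hp x w hx (Y.memR _ hw) hwv hwk⟩
    clear hw
    by_cases hvz : v = z
    · subst hvz
      rcases hw' with ⟨hw, hwC⟩ | ⟨hw, hwk, hwv, hwC, hwl⟩
      · have hkc : k ≠ c := fun e => hwc (X.rc e w hw)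
        exfalso
        have hxk : x ≠ k := by
          rintro rfl
          exact hkc (hik w hwC hxw)
        have := hp w x hwC hxC hxz hxk
        omega
      · have hu2 : E₂ v u := by
          rcases hu with hu | hu
          · have := hwl _ (X.memE _ _ hu).2; omega
          · exact hu
        exact Y.f6 w hw hwk x hx2 hxz hxw u hu2 hwu
    · exfalso
      have hu1 : E₁ z u := by
        rcases hu with hu | hu
        · exact hu
        · exact absurd (hz2 (Y.memE _ _ hu).1).symm hvz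
      have huC := (X.memE _ _ hu1).2
      rcases hw' with ⟨hw, hwC⟩ | ⟨hw, hwk, hwv, hwC, hwl⟩
      · have h1 := X.qq z X.hz (fun e => hvz e.symm)
        have := X.s1 hvz w hw hwc z u hu1 h1 (fun e => X.nqc (e ▸ X.hz))
        omega
      · have := hwl _ huC; omega

theorem s_cat : S_CAT := by
  intro V C C₁ C₂ E E₁ E₂ p z q v c k r Q Q₁ R R₁ R₂ X Y hp hvk htr hC hE hR hQ hQv hz hq hqq
  have kC : C₁ k := X.memR _ X.hr
  have vC : C₁ v := X.memQ _ X.hq
  have zC : C₁ z := X.memQ _ X.hz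
  have cC : C₁ c := X.memR _ X.hc
  have hzk : z ≠ k := by
    rintro rfl
    by_cases hkc : z = c
    · exact X.nqc (hkc ▸ X.hz)
    · have := X.qr z z X.hz X.hr hkc
      omega
  have h2C : ∀ x, C₂ x → C₁ x ∨ (x ≠ v ∧ x ≠ k ∧ ∀ y, C₁ y → p y < p x) := by
    intro x hx
    by_cases hxv : x = v
    · left; rw [hxv]; exact vC
    · by_cases hxk : x = k
      · left; rw [hxk]; exact kC
      · exact Or.inr ⟨hxv, hxk, fun y hy => hp y x hy hx hxv hxk⟩
  have h2R : ∀ x, R₂ x → R₁ x ∨ (x ≠ v ∧ x ≠ k ∧ C₂ x ∧ ∀ y, C₁ y → p y < p x) := by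
    intro x hx
    by_cases hxk : x = k
    · left; rw [hxk]; exact X.hr
    · right
      have hxv : x ≠ v := by
        rintro rfl
        have := Y.qr x x Y.hz hx hxk
        omega
      exact ⟨hxv, hxk, Y.memR _ hx, fun y hy => hp y x hy (Y.memR _ hx) hxv hxk⟩
  have hQv' : ∀ x, Q x → x ≠ z → x ≠ v := by
    rintro x hx hxz rfl
    exact hxz (hQv hx)
  have e1 := fun x y => (hE x y).1
  refine ⟨?_, ?_, ?_, ?_, ?_, ?_, hz, hq, ?_, ?_, ?_, ?_, ?_, ?_, ?_, ?_, ?_, ?_, ?_, ?_, ?_, ?_,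
    ?_⟩
  · -- inj
    intro x y hx hy hxy
    rw [hC] at hx hy
    have hX := X.inj x y
    have hY := Y.inj x y
    grind
  · intro x y h
    rw [hC, hC]
    rcases (hE x y).1 h with h | h
    · exact ⟨Or.inl (X.memE _ _ h).1, Or.inl (X.memE _ _ h).2⟩
    · exact ⟨Or.inr (Y.memE _ _ h).1, Or.inr (Y.memE _ _ h).2⟩
  · intro x y h
    rw [hE]
    rcases (hE x y).1 h with h | h
    · exact Or.inl (X.symm _ _ h)
    · exact Or.inr (Y.symm _ _ h)
  · intro x y h
    rcases (hE x y).1 h with h | h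
    · exact X.irr _ _ h
    · exact Y.irr _ _ h
  · exact fun x hx => (hC x).2 (Or.inl (X.memQ _ (hQ x hx)))
  · intro x hx
    rw [hC]
    rcases (hR x).1 hx with h | h
    · exact Or.inl (X.memR _ h)
    · exact Or.inr (Y.memR _ h)
  · exact (hR c).2 (Or.inl X.hc)
  · exact (hR r).2 (Or.inr Y.hr)
  · exact fun h => X.nqc (hQ c h)
  · -- lo
    intro x hx hxz hxc
    rcases (hC x).1 hx with h | h
    · exact X.lo x h hxz hxc
    · rcases h2C x h with h | ⟨-, -, h⟩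
      · exact X.lo x h hxz hxc
      · exact ⟨h z zC, h c cC⟩
  · -- hi
    intro hrc x hx hxr
    by_cases hrk : r = k
    · subst hrk
      have h1 := X.hi hrc x
      rcases (hC x).1 hx with h | h
      · exact h1 h hxr
      · rcases htr rfl x h with e | e
        · rw [e]; exact X.hi hrc v vC (fun e' => hxr (e.trans e'))
        · exact absurd e hxr
    · rcases (hC x).1 hx with h | h
      · rcases h2R r Y.hr with h' | ⟨-, -, -, h'⟩
        · exfalso
          have hrv : r ≠ v := by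
            intro e
            have := Y.qr v r Y.hz Y.hr hrk
            rw [e] at this
            omega
          have := hp r r (X.memR _ h') (Y.memR _ Y.hr) hrv hrk
          omega
        · exact h' x h
      · exact Y.hi hrk x h hxr
  · -- rc
    intro hrc x hx
    have hrk : r = k := by
      by_contra hrk
      have hrv : r ≠ v := by
        intro e
        have := Y.qr v r Y.hz Y.hr hrk
        rw [e] at this
        omega
      have := hp c r cC (Y.memR _ Y.hr) hrv hrk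
      rw [hrc] at this
      omega
    rcases (hR x).1 hx with h | h
    · exact X.rc (hrk.symm.trans hrc) x h
    · exact (Y.rc hrk x h).trans (hrk.symm.trans hrc)
  · exact hqq
  · -- qr
    intro x y hx hy hyc
    rcases (hR y).1 hy with h | h
    · exact X.qr x y (hQ x hx) h hyc
    · rcases h2R y h with h | ⟨-, -, -, h⟩
      · exact X.qr x y (hQ x hx) h hyc
      · exact h x (X.memQ _ (hQ x hx))
  · intro a₁ a₂ a₃ a₄ b₁ b₂ b₃ b₄ h1 h2 h3 h4
    exact cat_f1 X Y hp hvk a₁ a₂ a₃ a₄ b₁ b₂ b₃ b₄ (e1 _ _ h1) (e1 _ _ h2) (e1 _ _ h3) (e1 _ _ h4)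
  · intro x hx hxz hxc a₁ a₂ a₃ b₁ b₂ b₃ h1 h2 h3
    refine cat_f2 X Y hp hvk x ?_ hxz hxc a₁ a₂ a₃ b₁ b₂ b₃ (e1 _ _ h1) (e1 _ _ h2) (e1 _ _ h3)
    rcases hx with hx | hx
    · exact Or.inl ⟨hQ x hx, hQv' x hx hxz⟩
    · exact Or.inr ((hR x).1 hx)
  · intro x hx hxz hxc y hy hyx a₁ a₂ b₁ b₂ h1 h2
    refine cat_f3 X Y hp hvk x ?_ hxz hxc y (e1 _ _ hy) hyx a₁ a₂ b₁ b₂ (e1 _ _ h1) (e1 _ _ h2)
    rcases hx with hx | hx
    · exact Or.inl ⟨hQ x hx, hQv' x hx hxz⟩
    · exact Or.inr ((hR x).1 hx)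
  · intro hrc x y hx hy hyx a₁ a₂ b₁ b₂ h1 h2
    exact cat_f4 X Y hp hvk htr hrc x y (e1 _ _ hx) (e1 _ _ hy) hyx a₁ a₂ b₁ b₂ (e1 _ _ h1)
      (e1 _ _ h2)
  · intro w hw hwc x y hx hy hyx hxw a b h
    exact cat_f5 X Y hp hvk htr w ((hR w).1 hw) hwc x y (e1 _ _ hx) (e1 _ _ hy) hyx hxw a b
      (e1 _ _ h)
  · intro w hw hwc x hx hxz hxw u hu hwu
    exact cat_f6 X Y hp hvk htr w ((hR w).1 hw) hwc x (e1 _ _ hx) hxz hxw u (e1 _ _ hu) hwu
  · intro hqz w hw hwc a b h haq hac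
    have hqv : q ≠ v := hQv' q hq hqz
    have hqv' := X.qq q (hQ q hq) hqv
    have hvz : v ≠ z := by
      intro e
      rw [e] at hqv'
      have := X.belowz (X.memQ _ (hQ q hq)) hqv'
      exact X.nqc (this ▸ hQ q hq)
    rcases (hE a b).1 h with h | h
    · have hb := (X.memE _ _ h).2
      rcases (hR w).1 hw with h' | h'
      · exact X.s1 hvz w h' hwc a b h (by omega) hac
      · rcases h2R w h' with h' | ⟨-, -, -, h'⟩
        · exact X.s1 hvz w h' hwc a b h (by omega) hac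
        · exact h' b hb
    · exfalso
      have ha := (Y.memE _ _ h).1
      have hav : a ≠ v := by
        rintro rfl; omega
      by_cases hak : a = k
      · subst hak
        exact hac (X.above (X.memQ _ (hQ q hq)) haq)
      · have := hp q a (X.memQ _ (hQ q hq)) ha hav hak
        omega
end

end Pool.Agent.Lib.MP_d86530_co.Lv
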