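import Pool.Agent.Lib.MP_d86530_co.Lv.Stm

set_option autoImplicit false

namespace Pool.Agent.Lib.MP_d86530_co.Lv

theorem s_dc : S_DC := by
  intro V C C₁ C₂ E E₁ E₂ p r k t R R₁ R₂ D1 D2 hp hC hE hR
  have r1 : C₁ r := D1.memR _ D1.hr
  have k1 : C₁ k := D1.memR _ D1.ht
  have k2 : C₂ k := D2.memR _ D2.hr
  have t2 : C₂ t := D2.memR _ D2.ht
  have le1 : ∀ x, C₁ x → p x ≤ p k := by
    intro x hx
    by_cases h : x = k
    · rw [h]
    · exact (D1.hi x hx h).le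
  have le2 : ∀ x, C₂ x → p k ≤ p x := by
    intro x hx
    by_cases h : x = k
    · rw [h]
    · exact (D2.lo x hx h).le
  have rk := D1.hi r r1 D1.ne
  have kt := D2.lo t t2 D2.ne.symm
  have r2 : ¬ C₂ r := fun h => by have := le2 r h; omega
  have t1 : ¬ C₁ t := fun h => by have := le1 t h; omega
  have both : ∀ x, C₁ x → C₂ x → x = k := by
    intro x h1 h2
    by_contra h
    have := hp x x h1 h2 h
    omega
  have typ : ∀ a b, E a b → (E₁ a b ∧ C₁ a ∧ C₁ b ∧ p a ≤ p k ∧ p b ≤ p k) ∨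
      (E₂ a b ∧ C₂ a ∧ C₂ b ∧ p k ≤ p a ∧ p k ≤ p b) := by
    intro a b h
    rcases (hE a b).1 h with h | h
    · have := D1.memE _ _ h
      exact Or.inl ⟨h, this.1, this.2, le1 _ this.1, le1 _ this.2⟩
    · have := D2.memE _ _ h
      exact Or.inr ⟨h, this.1, this.2, le2 _ this.1, le2 _ this.2⟩
  have hr : ∀ y, E r y → E₁ r y ∧ C₁ y := by
    intro y h
    rcases typ _ _ h with h | h
    · exact ⟨h.1, h.2.2.1⟩
    · exact absurd h.2.1 r2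
  have ht : ∀ x, E x t → E₂ x t ∧ C₂ x := by
    intro x h
    rcases typ _ _ h with h | h
    · exact absurd h.2.2.1 t1
    · exact ⟨h.1, h.2.1⟩
  have hRm : ∀ x, R x → (R₁ x ∧ C₁ x ∧ p x ≤ p k) ∨ (R₂ x ∧ C₂ x ∧ x ≠ k ∧ p k < p x) := by
    intro x hx
    rcases (hR x).1 hx with h | h
    · exact Or.inl ⟨h, D1.memR _ h, le1 _ (D1.memR _ h)⟩
    · by_cases hk : x = k
      · left; rw [hk]; exact ⟨D1.ht, k1, le_rfl⟩
      · exact Or.inr ⟨h, D2.memR _ h, hk, D2.lo x (D2.memR _ h) hk⟩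
  refine ⟨?_, ?_, ?_, ?_, ?_, ?_, ?_, ?_, ?_, ?_, ?_, ?_, ?_, ?_, ?_⟩
  · intro x y hx hy hxy
    rcases (hC x).1 hx with hx1 | hx2
    · rcases (hC y).1 hy with hy1 | hy2
      · exact D1.inj x y hx1 hy1 hxy
      · by_cases hk : y = k
        · subst hk; exact D1.inj x y hx1 k1 hxy
        · have := hp x y hx1 hy2 hk; omega
    · rcases (hC y).1 hy with hy1 | hy2
      · by_cases hk : x = k
        · subst hk; exact D1.inj x y k1 hy1 hxy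
        · have := hp y x hy1 hx2 hk; omega
      · exact D2.inj x y hx2 hy2 hxy
  · intro x y h
    rw [hC, hC]
    rcases typ _ _ h with h | h
    · exact ⟨Or.inl h.2.1, Or.inl h.2.2.1⟩
    · exact ⟨Or.inr h.2.1, Or.inr h.2.2.1⟩
  · intro x y h
    rw [hE]
    rcases (hE x y).1 h with h | h
    · exact Or.inl (D1.symm _ _ h)
    · exact Or.inr (D2.symm _ _ h)
  · intro x y h
    rcases (hE x y).1 h with h | h
    · exact D1.irr _ _ h
    · exact D2.irr _ _ h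
  · intro x hx
    rw [hC]
    rcases (hR x).1 hx with h | h
    · exact Or.inl (D1.memR _ h)
    · exact Or.inr (D2.memR _ h)
  · exact (hR r).2 (Or.inl D1.hr)
  · exact (hR t).2 (Or.inr D2.ht)
  · rintro rfl; omega
  · intro x hx hxr
    rcases (hC x).1 hx with h | h
    · exact D1.lo x h hxr
    · have := le2 x h; omega
  · intro x hx hxt
    rcases (hC x).1 hx with h | h
    · have := le1 x h; omega
    · exact D2.hi x h hxt
  · intro a₁ a₂ a₃ a₄ b₁ b₂ b₃ b₄ h1 h2 h3 h4 o1 o2 o3 o4 o5 o6 o7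
    rcases typ _ _ h1 with h1 | h1 <;> rcases typ _ _ h2 with h2 | h2 <;>
    rcases typ _ _ h3 with h3 | h3 <;> rcases typ _ _ h4 with h4 | h4 <;>
    first
    | exact D1.d1 a₁ a₂ a₃ a₄ b₁ b₂ b₃ b₄ h1.1 h2.1 h3.1 h4.1 o1 o2 o3 o4 o5 o6 o7
    | exact D2.d1 a₁ a₂ a₃ a₄ b₁ b₂ b₃ b₄ h1.1 h2.1 h3.1 h4.1 o1 o2 o3 o4 o5 o6 o7
    | omega
  · intro x hx hxr hxt a₁ a₂ a₃ b₁ b₂ b₃ h1 h2 h3 o1 o2 o3 o4 o5 o6
    rcases hRm x hx with ⟨hx, -, hxk⟩ | ⟨hx, -, hk, hxk⟩ <;>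
    rcases typ _ _ h1 with h1 | h1 <;> rcases typ _ _ h2 with h2 | h2 <;>
    rcases typ _ _ h3 with h3 | h3 <;>
    first
    | exact D1.d2 x hx hxr (by rintro rfl; omega) a₁ a₂ a₃ b₁ b₂ b₃ h1.1 h2.1 h3.1 o1 o2 o3 o4 o5 o6
    | exact D2.d2 x hx hk hxt a₁ a₂ a₃ b₁ b₂ b₃ h1.1 h2.1 h3.1 o1 o2 o3 o4 o5 o6
    | omega
  · intro x hx hxr hxt y hy hyx a₁ a₂ b₁ b₂ h1 h2 c1 c2 o1 o2 o3 o4
    obtain ⟨hy1, hyC⟩ := hr y hy
    have := le1 y hyC
    rcases hRm x hx with ⟨hx, -, hxk⟩ | ⟨hx, -, hk, hxk⟩ <;>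
    rcases typ _ _ h1 with h1 | h1 <;> rcases typ _ _ h2 with h2 | h2 <;>
    first
    | exact D1.d3 x hx hxr (by rintro rfl; omega) y hy1 hyx a₁ a₂ b₁ b₂ h1.1 h2.1 c1 c2 o1 o2 o3 o4
    | omega
  · intro x y hx hy hyx a₁ a₂ b₁ b₂ h1 h2 c1 c2 r1 r2 o1 o2 o3 o4
    have h3 := le1 y (hr y hy).2
    have h4 := le2 x (ht x hx).2
    rcases typ _ _ h1 with h1 | h1 <;> omega
  · intro w hw hwr hwt x y hx hy hyx hxw a b h har hbt hay hwb
    have h3 := le1 y (hr y hy).2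
    have h4 := le2 x (ht x hx).2
    rcases typ _ _ h with h | h <;> omega

end Pool.Agent.Lib.MP_d86530_co.Lv
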