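import Pool.Agent.Lib.MP_d86530_co.Lv.Stm

set_option autoImplicit false

namespace Pool.Agent.Lib.MP_d86530_co.Lv

theorem s_di : S_DI := by
  intro V C E p z c r Q R F hn hrc
  have hxz : ∀ x, R x → x ≠ c → x ≠ z := by
    rintro x hx hxc rfl
    have := F.qr x x F.hz hx hxc
    omega
  refine ⟨F.inj, F.memE, F.symm, F.irr, F.memR, F.hc, F.hr, hrc.symm, ?_, F.hi hrc, F.f1, ?_, ?_,
    F.f4 hrc, ?_⟩
  · intro x hx hxc
    by_cases h : x = z
    · rw [h]; exact hn
    · exact (F.lo x hx h hxc).2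
  · intro x hx hxc _
    exact F.f2 x (Or.inr hx) (hxz x hx hxc) hxc
  · intro x hx hxc _
    exact F.f3 x (Or.inr hx) (hxz x hx hxc) hxc
  · intro w hw hwc _
    exact F.f5 w hw hwc

end Pool.Agent.Lib.MP_d86530_co.Lv
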