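import Pool.Agent.Lib.MP_d86530_co.Lv.Stm

/-! # MP_d86530_co, level layout, closure lemma FD -/

set_option autoImplicit false

namespace Pool.Agent.Lib.MP_d86530_co.Lv

theorem s_fd : S_FD := by
  intro V C E p p' z q c Q R G hR hQc hQz hQq hqz hqq hrev hlo hcz
  have hzC : C z := G.memR _ G.ht
  have hcC : C c := G.memR _ G.hr
  have hzc : z ≠ c := G.ne.symm
  have hlo' : ∀ x, C x → x ≠ z → x ≠ c → p z < p x ∧ p c < p x := by
    intro x hx h1 h2
    exact ⟨(hrev z x hzC hx hzc h2).2 (G.hi x hx h1), hlo x hx h2 h1⟩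
  have hE : ∀ a b, E a b → C a ∧ C b := G.memE
  -- reversal
  have rv : ∀ x y, C x → C y → x ≠ c → y ≠ c → p x < p y → p' y < p' x :=
    fun x y hx hy h1 h2 h => (hrev x y hx hy h1 h2).1 h
  have cl : ∀ x, C x → x ≠ c → p' c < p' x := G.lo
  -- something with two vertices below is not `c`
  have nc : ∀ x y w, C x → C y → C w → p x < p y → p y < p w → w ≠ c := by
    intro x y w hx hy hw h1 h2 e
    subst e
    by_cases hyz : y = z
    · subst hyz
      have hxc : x ≠ w := by rintro rfl; omega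
      have := (hlo' x hx (by rintro rfl; omega) hxc).1
      omega
    · have := (hlo' y hy hyz (by rintro rfl; omega)).2
      omega
  have nz : ∀ x y w, C x → C y → C w → p x < p y → p y < p w → w ≠ z := by
    intro x y w hx hy hw h1 h2 e
    subst e
    by_cases hyc : y = c
    · subst hyc
      have hxz : x ≠ w := by rintro rfl; omega
      have := (hlo' x hx hxz (by rintro rfl; omega)).2
      omega
    · have := (hlo' y hy (by rintro rfl; omega) hyc).1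
      omega
  -- the second vertex is `c` only if the first is `z`
  have sc : ∀ x, C x → p x < p c → x = z := by
    intro x hx h
    by_contra hne
    have := (hlo' x hx hne (by rintro rfl; omega)).2
    omega
  refine
    { inj := ?_
      memE := G.memE
      symm := G.symm
      irr := G.irr
      memQ := fun x hx => G.memR x ((hR x).2 (Or.inr hx))
      memR := fun x hx => by
        have hx' : x = c := hx
        rw [hx']; exact hcC
      hz := hQz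
      hq := hQq
      hc := rfl
      hr := rfl
      nqc := hQc
      lo := hlo'
      hi := fun h => absurd rfl h
      rc := fun _ x hx => hx
      qq := ?_
      qr := fun x y _ hy hyc => absurd hy hyc
      f1 := ?_
      f2 := ?_
      f3 := ?_
      f4 := fun h => absurd rfl h
      f5 := fun w hw hwc => absurd hw hwc
      f6 := fun w hw hwc => absurd hw hwc
      s1 := fun _ w hw hwc => absurd hw hwc }
  · intro x y hx hy h
    by_cases h1 : x = c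
    · subst h1
      by_contra hne
      by_cases h2 : y = z
      · subst h2; exact hcz h
      · have := hlo y hy (fun e => hne e.symm) h2
        omega
    · by_cases h2 : y = c
      · subst h2
        exfalso
        by_cases h3 : x = z
        · subst h3; exact hcz h.symm
        · have := hlo x hx h1 h3
          omega
      · refine G.inj x y hx hy ?_
        have k1 := hrev x y hx hy h1 h2
        have k2 := hrev y x hy hx h2 h1
        rcases lt_trichotomy (p' x) (p' y) with h3 | h3 | h3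
        · have := k2.2 h3; omega
        · exact h3
        · have := k1.2 h3; omega
  · intro x hx hxq
    have hxC := G.memR x ((hR x).2 (Or.inr hx))
    have hqC := G.memR q ((hR q).2 (Or.inr hQq))
    exact (hrev x q hxC hqC (by rintro rfl; exact hQc hx) (by rintro rfl; exact hQc hQq)).2
      (hqq x hx hxq)
  · -- f1
    intro a₁ a₂ a₃ a₄ b₁ b₂ b₃ b₄ e₁ e₂ e₃ e₄ h1 h2 h3 h4 h5 h6 h7
    obtain ⟨A1, B1⟩ := hE _ _ e₁
    obtain ⟨A2, B2⟩ := hE _ _ e₂
    obtain ⟨A3, B3⟩ := hE _ _ e₃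
    obtain ⟨A4, B4⟩ := hE _ _ e₄
    have n3 := nc a₁ a₂ a₃ A1 A2 A3 h1 h2
    have n4 := nc a₂ a₃ a₄ A2 A3 A4 h2 h3
    have m1 := nc a₃ a₄ b₁ A3 A4 B1 h3 h4
    have m2 := nc a₄ b₁ b₂ A4 B1 B2 h4 h5
    have m3 := nc b₁ b₂ b₃ B1 B2 B3 h5 h6
    have m4 := nc b₂ b₃ b₄ B2 B3 B4 h6 h7
    have r1 := rv _ _ B3 B4 m3 m4 h7
    have r2 := rv _ _ B2 B3 m2 m3 h6
    have r3 := rv _ _ B1 B2 m1 m2 h5
    have r4 := rv _ _ A4 B1 n4 m1 h4
    have r5 := rv _ _ A3 A4 n3 n4 h3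
    by_cases n2 : a₂ = c
    · subst n2
      have ha1 := sc a₁ A1 h1
      subst ha1
      exact G.d4 b₁ b₂ (G.symm _ _ e₁) e₂ r3 b₄ b₃ a₄ a₃ (G.symm _ _ e₄) (G.symm _ _ e₃) m4 m3
        (nz a₂ a₃ a₄ A2 A3 A4 h2 h3) (nz a₁ a₂ a₃ A1 A2 A3 h1 h2) r1 r2 r4 r5
    · have r6 := rv _ _ A2 A3 n2 n3 h2
      by_cases n1 : a₁ = c
      · subst n1
        exact G.d1 a₁ b₄ b₃ b₂ b₁ a₄ a₃ a₂ e₁ (G.symm _ _ e₄) (G.symm _ _ e₃) (G.symm _ _ e₂)
          (cl _ B4 m4) r1 r2 r3 r4 r5 r6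
      · have r7 := rv _ _ A1 A2 n1 n2 h1
        exact G.d1 b₄ b₃ b₂ b₁ a₄ a₃ a₂ a₁ (G.symm _ _ e₄) (G.symm _ _ e₃) (G.symm _ _ e₂)
          (G.symm _ _ e₁) r1 r2 r3 r4 r5 r6 r7
  · -- f2
    intro x hx hxz hxc a₁ a₂ a₃ b₁ b₂ b₃ e₁ e₂ e₃ h1 h2 h3 h4 h5 h6
    have hxQ : Q x := hx.resolve_right hxc
    have hxR : R x := (hR x).2 (Or.inr hxQ)
    have hxC := G.memR x hxR
    obtain ⟨A1, B1⟩ := hE _ _ e₁
    obtain ⟨A2, B2⟩ := hE _ _ e₂
    obtain ⟨A3, B3⟩ := hE _ _ e₃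
    have n3 := nc a₁ a₂ a₃ A1 A2 A3 h1 h2
    have m1 := nc a₃ x b₁ A3 hxC B1 h3 h4
    have m2 := nc x b₁ b₂ hxC B1 B2 h4 h5
    have m3 := nc b₁ b₂ b₃ B1 B2 B3 h5 h6
    have r1 := rv _ _ B2 B3 m2 m3 h6
    have r2 := rv _ _ B1 B2 m1 m2 h5
    have r3 := rv _ _ hxC B1 hxc m1 h4
    have r4 := rv _ _ A3 hxC n3 hxc h3
    by_cases n2 : a₂ = c
    · subst n2
      have ha1 := sc a₁ A1 h1
      subst ha1
      exact G.d5 x hxR hxc hxz b₁ b₂ (G.symm _ _ e₁) e₂ r2 r3 b₃ a₃ (G.symm _ _ e₃) m3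
        (nz a₁ a₂ a₃ A1 A2 A3 h1 h2) r1 r4
    · have r5 := rv _ _ A2 A3 n2 n3 h2
      by_cases n1 : a₁ = c
      · subst n1
        exact G.d3 x hxR hxc hxz b₁ e₁ r3 b₃ b₂ a₃ a₂ (G.symm _ _ e₃) (G.symm _ _ e₂) m3 m2 r1 r2
          r4 r5
      · have r6 := rv _ _ A1 A2 n1 n2 h1
        exact G.d2 x hxR hxc hxz b₃ b₂ b₁ a₃ a₂ a₁ (G.symm _ _ e₃) (G.symm _ _ e₂)
          (G.symm _ _ e₁) r1 r2 r3 r4 r5 r6
  · -- f3
    intro x hx hxz hxc y hy hyx a₁ a₂ b₁ b₂ e₁ e₂ n1 n2 h1 h2 h3 h4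
    have hxQ : Q x := hx.resolve_right hxc
    have hxR : R x := (hR x).2 (Or.inr hxQ)
    have hxC := G.memR x hxR
    have hyC := (hE _ _ hy).2
    have hyc : y ≠ c := (G.irr _ _ hy).symm
    obtain ⟨A1, B1⟩ := hE _ _ e₁
    obtain ⟨A2, B2⟩ := hE _ _ e₂
    have m1 := nc y x b₁ hyC hxC B1 hyx h3
    have m2 := nc x b₁ b₂ hxC B1 B2 h3 h4
    exact G.d2 x hxR hxc hxz c b₂ b₁ y a₂ a₁ hy (G.symm _ _ e₂) (G.symm _ _ e₁) (cl _ B2 m2)
      (rv _ _ B1 B2 m1 m2 h4) (rv _ _ hxC B1 hxc m1 h3) (rv _ _ hyC hxC hyc hxc hyx)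
      (rv _ _ A2 hyC n2 hyc h2) (rv _ _ A1 A2 n1 n2 h1)

end Pool.Agent.Lib.MP_d86530_co.Lv
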