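import Mathlib

/-!
# Good layouts of discs (order part of the levelled layout, scheme of helper33)

`GD` : layouts of a disc with boundary `r, ..., t` (all other vertices between `r` and `t`).
`GF` : layouts of a disc with boundary cycle `q₁ = z, ..., q_p = q, r_j = r, ..., r₁ = c`; the two
anchors `z`, `c` are below everything else (in any order).
-/

set_option autoImplicit false

namespace Pool.Agent.Lib.MP_d86530_co.Lv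

variable {V : Type*}

/-- Good layout of a disc with vertex set `C`, edges `E`, first boundary vertex `r`, last boundary
vertex `t`, boundary `R`. -/
structure GD (C : V → Prop) (E : V → V → Prop) (p : V → ℤ) (r t : V) (R : V → Prop) : Prop where
  inj : ∀ x y, C x → C y → p x = p y → x = y
  memE : ∀ x y, E x y → C x ∧ C y
  symm : ∀ x y, E x y → E y x
  irr : ∀ x y, E x y → x ≠ y
  memR : ∀ x, R x → C x
  hr : R r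
  ht : R t
  ne : r ≠ t
  lo : ∀ x, C x → x ≠ r → p r < p x
  hi : ∀ x, C x → x ≠ t → p x < p t
  d1 : ∀ a₁ a₂ a₃ a₄ b₁ b₂ b₃ b₄, E a₁ b₁ → E a₂ b₂ → E a₃ b₃ → E a₄ b₄ →
    p a₁ < p a₂ → p a₂ < p a₃ → p a₃ < p a₄ → p a₄ < p b₁ → p b₁ < p b₂ → p b₂ < p b₃ →
    p b₃ < p b₄ → False
  d2 : ∀ x, R x → x ≠ r → x ≠ t → ∀ a₁ a₂ a₃ b₁ b₂ b₃, E a₁ b₁ → E a₂ b₂ → E a₃ b₃ →
    p a₁ < p a₂ → p a₂ < p a₃ → p a₃ < p x → p x < p b₁ → p b₁ < p b₂ → p b₂ < p b₃ → False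
  d3 : ∀ x, R x → x ≠ r → x ≠ t → ∀ y, E r y → p y < p x → ∀ a₁ a₂ b₁ b₂, E a₁ b₁ → E a₂ b₂ →
    a₁ ≠ r → a₂ ≠ r → p a₁ < p a₂ → p a₂ < p y → p x < p b₁ → p b₁ < p b₂ → False
  d4 : ∀ x y, E x t → E r y → p y < p x → ∀ a₁ a₂ b₁ b₂, E a₁ b₁ → E a₂ b₂ →
    a₁ ≠ r → a₂ ≠ r → b₁ ≠ t → b₂ ≠ t → p a₁ < p a₂ → p a₂ < p y → p x < p b₁ → p b₁ < p b₂ →
    False
  d5 : ∀ w, R w → w ≠ r → w ≠ t → ∀ x y, E x t → E r y → p y < p x → p x < p w →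
    ∀ a b, E a b → a ≠ r → b ≠ t → p a < p y → p w < p b → False

/-- Good layout of a disc with two anchors `z`, `c` below everything else. -/
structure GF (C : V → Prop) (E : V → V → Prop) (p : V → ℤ) (z q c r : V) (Q R : V → Prop) :
    Prop where
  inj : ∀ x y, C x → C y → p x = p y → x = y
  memE : ∀ x y, E x y → C x ∧ C y
  symm : ∀ x y, E x y → E y x
  irr : ∀ x y, E x y → x ≠ y
  memQ : ∀ x, Q x → C x
  memR : ∀ x, R x → C x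
  hz : Q z
  hq : Q q
  hc : R c
  hr : R r
  nqc : ¬ Q c
  lo : ∀ x, C x → x ≠ z → x ≠ c → p z < p x ∧ p c < p x
  hi : r ≠ c → ∀ x, C x → x ≠ r → p x < p r
  rc : r = c → ∀ x, R x → x = c
  qq : ∀ x, Q x → x ≠ q → p x < p q
  qr : ∀ x y, Q x → R y → y ≠ c → p x < p y
  f1 : ∀ a₁ a₂ a₃ a₄ b₁ b₂ b₃ b₄, E a₁ b₁ → E a₂ b₂ → E a₃ b₃ → E a₄ b₄ →
    p a₁ < p a₂ → p a₂ < p a₃ → p a₃ < p a₄ → p a₄ < p b₁ → p b₁ < p b₂ → p b₂ < p b₃ →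
    p b₃ < p b₄ → False
  f2 : ∀ x, (Q x ∨ R x) → x ≠ z → x ≠ c → ∀ a₁ a₂ a₃ b₁ b₂ b₃, E a₁ b₁ → E a₂ b₂ → E a₃ b₃ →
    p a₁ < p a₂ → p a₂ < p a₃ → p a₃ < p x → p x < p b₁ → p b₁ < p b₂ → p b₂ < p b₃ → False
  f3 : ∀ x, (Q x ∨ R x) → x ≠ z → x ≠ c → ∀ y, E c y → p y < p x → ∀ a₁ a₂ b₁ b₂, E a₁ b₁ →
    E a₂ b₂ → a₁ ≠ c → a₂ ≠ c → p a₁ < p a₂ → p a₂ < p y → p x < p b₁ → p b₁ < p b₂ → False
  f4 : r ≠ c → ∀ x y, E x r → E c y → p y < p x → ∀ a₁ a₂ b₁ b₂, E a₁ b₁ → E a₂ b₂ →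
    a₁ ≠ c → a₂ ≠ c → b₁ ≠ r → b₂ ≠ r → p a₁ < p a₂ → p a₂ < p y → p x < p b₁ → p b₁ < p b₂ →
    False
  f5 : ∀ w, R w → w ≠ c → ∀ x y, E x r → E c y → p y < p x → p x < p w →
    ∀ a b, E a b → a ≠ c → b ≠ r → p a < p y → p w < p b → False
  f6 : ∀ w, R w → w ≠ c → ∀ x, E x r → x ≠ z → p x < p w → ∀ u, E z u → p w < p u → u = r
  s1 : q ≠ z → ∀ w, R w → w ≠ c → ∀ a b, E a b → p a < p q → a ≠ c → p b < p w

end Pool.Agent.Lib.MP_d86530_co.Lv
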