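import Pool.Agent.Lib.MP_d86530_co.Lv.Good

/-!
# Statements of the closure lemmas (order part)

Every lemma is about positions `p : V → ℤ` only.  `Ed a b x y` : `xy` is the edge `ab`.
-/

set_option autoImplicit false

namespace Pool.Agent.Lib.MP_d86530_co.Lv

/-- `xy` is the edge `ab` -/
def Ed {V : Type*} (a b x y : V) : Prop := (x = a ∧ y = b) ∨ (x = b ∧ y = a)

/-- 1. (DE) adding the edge between the two extreme vertices of a disc -/
def S_DE : Prop := ∀ {V : Type} {C : V → Prop} {E E' : V → V → Prop} {p : V → ℤ} {r t : V}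
  {R : V → Prop}, GD C E p r t R → (∀ x y, E' x y ↔ E x y ∨ Ed r t x y) → GD C E' p r t R

/-- 2. (DC) concatenation of two discs at a common boundary vertex `k` -/
def S_DC : Prop := ∀ {V : Type} {C C₁ C₂ : V → Prop} {E E₁ E₂ : V → V → Prop} {p : V → ℤ}
  {r k t : V} {R R₁ R₂ : V → Prop}, GD C₁ E₁ p r k R₁ → GD C₂ E₂ p k t R₂ →
  (∀ x y, C₁ x → C₂ y → y ≠ k → p x < p y) →
  (∀ x, C x ↔ C₁ x ∨ C₂ x) → (∀ x y, E x y ↔ E₁ x y ∨ E₂ x y) → (∀ x, R x ↔ R₁ x ∨ R₂ x) →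
  GD C E p r t R

/-- 3. (DI) a near layout with `Q = {z}` is a disc layout -/
def S_DI : Prop := ∀ {V : Type} {C : V → Prop} {E : V → V → Prop} {p : V → ℤ} {z c r : V}
  {Q R : V → Prop}, GF C E p z z c r Q R → p c < p z → r ≠ c → GD C E p c r R

/-- 4. (FB) a disc and a new vertex `z` joined to the first vertex `c` of the disc -/
def S_FB : Prop := ∀ {V : Type} {C C₁ : V → Prop} {E E₁ : V → V → Prop} {p : V → ℤ} {z c r : V}
  {R : V → Prop}, GD C₁ E₁ p c r R → ¬ C₁ z → p z ≠ p c → (∀ x, C₁ x → x ≠ c → p z < p x) →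
  (∀ x, C x ↔ C₁ x ∨ x = z) → (∀ x y, E x y ↔ E₁ x y ∨ Ed z c x y) →
  GF C E p z z c r (fun x => x = z) R

/-- 5. (AN) adding the edge `q r` -/
def S_AN : Prop := ∀ {V : Type} {C : V → Prop} {E E' : V → V → Prop} {p : V → ℤ} {z q c r : V}
  {Q R : V → Prop}, GF C E p z q c r Q R → r ≠ c → (∀ x y, E' x y ↔ E x y ∨ Ed q r x y) →
  GF C E' p z q c r Q R

/-- 6. (F0) a single edge -/
def S_F0 : Prop := ∀ {V : Type} {p : V → ℤ} {z c : V}, p z ≠ p c →
  GF (fun x => x = z ∨ x = c) (Ed z c) p z z c c (fun x => x = z) (fun x => x = c)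

/-- 7. (FD) a disc with boundary `c, q_p, ..., q_2, z`, reversed, with `c` moved to the other end.
`p'` is the layout of the disc, `p` the new one (near or far). -/
def S_FD : Prop := ∀ {V : Type} {C : V → Prop} {E : V → V → Prop} {p p' : V → ℤ} {z q c : V}
  {Q R : V → Prop}, GD C E p' c z R → (∀ x, R x ↔ x = c ∨ Q x) → ¬ Q c → Q z → Q q → q ≠ z →
  (∀ x, Q x → x ≠ q → p' q < p' x) →
  (∀ x y, C x → C y → x ≠ c → y ≠ c → (p x < p y ↔ p' y < p' x)) →
  (∀ x, C x → x ≠ c → x ≠ z → p c < p x) → p c ≠ p z → GF C E p z q c c Q (fun x => x = c)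

/-- 8. (CAT) concatenation.  The left part ends (on the `Q` side) with `v` (`v = z` allowed), on the
`R` side with `k` (`k = c` allowed); the right part has the anchors `v` and `k`.  `Q` is a part of
the `Q`-boundary of the left part which does not contain `v` (unless `v = z`). -/
def S_CAT : Prop := ∀ {V : Type} {C C₁ C₂ : V → Prop} {E E₁ E₂ : V → V → Prop} {p : V → ℤ}
  {z q v c k r : V} {Q Q₁ R R₁ R₂ : V → Prop}, GF C₁ E₁ p z v c k Q₁ R₁ →
  GF C₂ E₂ p v v k r (fun x => x = v) R₂ →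
  (∀ x y, C₁ x → C₂ y → y ≠ v → y ≠ k → p x < p y) → E₁ v k →
  (r = k → ∀ x, C₂ x → x = v ∨ x = k) →
  (∀ x, C x ↔ C₁ x ∨ C₂ x) → (∀ x y, E x y ↔ E₁ x y ∨ E₂ x y) → (∀ x, R x ↔ R₁ x ∨ R₂ x) →
  (∀ x, Q x → Q₁ x) → (Q v → v = z) → Q z → Q q → (∀ x, Q x → x ≠ q → p x < p q) →
  GF C E p z q c r Q R

/-- 9. (D0) a single edge -/
def S_D0 : Prop := ∀ {V : Type} {p : V → ℤ} {a b : V}, p a < p b →
  GD (fun x => x = a ∨ x = b) (Ed a b) p a b (fun x => x = a ∨ x = b)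

end Pool.Agent.Lib.MP_d86530_co.Lv
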